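import Mathlib

/-! Exchange lemma for coverings by disjoint cycles, proved by a walking
induction (one edge is changed at a time). -/

namespace H58E

open SimpleGraph

variable {V : Type*}

set_option linter.unusedSectionVars false

/-- degree of a vertex, as a cardinality of a set -/
noncomputable def dg (F : SimpleGraph V) (v : V) : ℕ := (F.neighborSet v).ncard

/-- `A` is covered by pairwise disjoint cycles of `G` -/
def Cov (G : SimpleGraph V) (A : Set V) : Prop :=
  ∃ F : SimpleGraph V, F ≤ G ∧
    (∀ v, (F.neighborSet v).ncard = 0 ∨ (F.neighborSet v).ncard = 2) ∧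
    ∀ v ∈ A, (F.neighborSet v).ncard = 2

/-- add one edge -/
def addE (F : SimpleGraph V) (a x : V) (h : a ≠ x) : SimpleGraph V where
  Adj u v := F.Adj u v ∨ (u = a ∧ v = x) ∨ (u = x ∧ v = a)
  symm := ⟨by
    intro u v huv
    rcases huv with h1 | h1 | h1
    · exact Or.inl h1.symm
    · exact Or.inr (Or.inr ⟨h1.2, h1.1⟩)
    · exact Or.inr (Or.inl ⟨h1.2, h1.1⟩)⟩
  loopless := ⟨by
    intro u hu
    rcases hu with h1 | h1 | h1
    · exact F.loopless.irrefl u h1
    · exact h (h1.1.symm.trans h1.2)
    · exact h (h1.2.symm.trans h1.1)⟩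

/-- remove one edge -/
def remE (F : SimpleGraph V) (a x : V) : SimpleGraph V where
  Adj u v := F.Adj u v ∧ ¬ (u = a ∧ v = x) ∧ ¬ (u = x ∧ v = a)
  symm := ⟨by
    intro u v huv
    exact ⟨huv.1.symm, fun h => huv.2.2 ⟨h.2, h.1⟩, fun h => huv.2.1 ⟨h.2, h.1⟩⟩⟩
  loopless := ⟨by
    intro u hu
    exact F.loopless.irrefl u hu.1⟩

section
variable [Finite V]

theorem dg_add_left (F : SimpleGraph V) {a x : V} (h : a ≠ x) (hn : ¬ F.Adj a x) :
    dg (addE F a x h) a = dg F a + 1 := by
  have e : (addE F a x h).neighborSet a = insert x (F.neighborSet a) := by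
    ext v
    simp only [SimpleGraph.mem_neighborSet, addE, Set.mem_insert_iff]
    constructor
    · rintro (h1 | h1 | h1)
      · exact Or.inr h1
      · exact Or.inl h1.2
      · exact absurd h1.1 h
    · rintro (h1 | h1)
      · exact Or.inr (Or.inl ⟨trivial, h1⟩)
      · exact Or.inl h1
  unfold dg
  rw [e, Set.ncard_insert_of_notMem (by simpa using hn) (Set.toFinite _)]

theorem addE_comm (F : SimpleGraph V) {a x : V} (h : a ≠ x) :
    addE F a x h = addE F x a h.symm := by
  ext u v
  simp only [addE]
  tauto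

theorem remE_comm (F : SimpleGraph V) (a x : V) :
    remE F a x = remE F x a := by
  ext u v
  simp only [remE]
  tauto

theorem dg_add_right (F : SimpleGraph V) {a x : V} (h : a ≠ x) (hn : ¬ F.Adj a x) :
    dg (addE F a x h) x = dg F x + 1 := by
  rw [addE_comm]
  exact dg_add_left F h.symm (fun h1 => hn h1.symm)

theorem dg_add_other (F : SimpleGraph V) {a x : V} (h : a ≠ x) {v : V} (h1 : v ≠ a)
    (h2 : v ≠ x) : dg (addE F a x h) v = dg F v := by
  have e : (addE F a x h).neighborSet v = F.neighborSet v := by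
    ext u
    simp only [SimpleGraph.mem_neighborSet, addE]
    constructor
    · rintro (h3 | h3 | h3)
      · exact h3
      · exact absurd h3.1 h1
      · exact absurd h3.1 h2
    · exact Or.inl
  unfold dg
  rw [e]

theorem dg_rem_left (F : SimpleGraph V) {a x : V} (hn : F.Adj a x) :
    dg (remE F a x) a + 1 = dg F a := by
  have e : (remE F a x).neighborSet a = (F.neighborSet a) \ {x} := by
    ext v
    simp only [SimpleGraph.mem_neighborSet, remE, Set.mem_sdiff, Set.mem_singleton_iff]
    constructor
    · rintro ⟨h1, h2, h3⟩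
      exact ⟨h1, fun h4 => h2 ⟨trivial, h4⟩⟩
    · rintro ⟨h1, h2⟩
      exact ⟨h1, fun h4 => h2 h4.2, fun h4 => F.ne_of_adj hn h4.1⟩
  unfold dg
  rw [e]
  exact Set.ncard_sdiff_singleton_add_one (by simpa using hn) (Set.toFinite _)

theorem dg_rem_right (F : SimpleGraph V) {a x : V} (hn : F.Adj a x) :
    dg (remE F a x) x + 1 = dg F x := by
  rw [remE_comm]
  exact dg_rem_left F hn.symm

theorem dg_rem_other (F : SimpleGraph V) {a x : V} {v : V} (h1 : v ≠ a)
    (h2 : v ≠ x) : dg (remE F a x) v = dg F v := by
  have e : (remE F a x).neighborSet v = F.neighborSet v := by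
    ext u
    simp only [SimpleGraph.mem_neighborSet, remE]
    constructor
    · exact fun h3 => h3.1
    · exact fun h3 => ⟨h3, fun h4 => h1 h4.1, fun h4 => h2 h4.1⟩
  unfold dg
  rw [e]

/-- the difference of two graphs, as a number of ordered pairs -/
noncomputable def ms (F F2 : SimpleGraph V) : ℕ :=
  ({p : V × V | ¬ (F.Adj p.1 p.2 ↔ F2.Adj p.1 p.2)}).ncard

theorem ms_add_lt (F F2 : SimpleGraph V) {a x : V} (h : a ≠ x) (h1 : ¬ F.Adj a x)
    (h2 : F2.Adj a x) : ms (addE F a x h) F2 < ms F F2 := by
  apply Set.ncard_lt_ncard _ (Set.toFinite _)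
  constructor
  · rintro ⟨u, v⟩ huv
    simp only [Set.mem_ofPred_eq, addE] at huv ⊢
    intro h3
    apply huv
    constructor
    · rintro (h4 | h4 | h4)
      · exact h3.1 h4
      · rw [h4.1, h4.2]; exact h2
      · rw [h4.1, h4.2]; exact h2.symm
    · exact fun h4 => Or.inl (h3.2 h4)
  · intro hs
    have := @hs (a, x) (by simp only [Set.mem_ofPred_eq]; tauto)
    simp only [Set.mem_ofPred_eq, addE] at this
    exact this ⟨fun _ => h2, fun _ => Or.inr (Or.inl ⟨trivial, trivial⟩)⟩

theorem ms_rem_lt (F F2 : SimpleGraph V) {a x : V} (h1 : F.Adj a x)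
    (h2 : ¬ F2.Adj a x) : ms (remE F a x) F2 < ms F F2 := by
  apply Set.ncard_lt_ncard _ (Set.toFinite _)
  constructor
  · rintro ⟨u, v⟩ huv
    simp only [Set.mem_ofPred_eq, remE] at huv ⊢
    intro h3
    apply huv
    constructor
    · exact fun h4 => h3.1 h4.1
    · intro h4
      refine ⟨h3.2 h4, fun h5 => h2 ?_, fun h5 => h2 ?_⟩
      · rw [← h5.1, ← h5.2]; exact h4
      · rw [← h5.1, ← h5.2]; exact h4.symm
  · intro hs
    have := @hs (a, x) (by simp only [Set.mem_ofPred_eq]; tauto)
    simp only [Set.mem_ofPred_eq, remE] at this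
    exact this ⟨fun h3 => absurd ⟨trivial, trivial⟩ h3.2.1, fun h3 => absurd h3 h2⟩

theorem adj_pos {F : SimpleGraph V} {a x : V} (h : F.Adj a x) : 0 < dg F a := by
  unfold dg
  rw [Set.ncard_pos (Set.toFinite _)]
  exact ⟨x, h⟩

theorem ex_of_lt {F F2 : SimpleGraph V} {a : V} (h : dg F a < dg F2 a) :
    ∃ x, F2.Adj a x ∧ ¬ F.Adj a x := by
  obtain ⟨x, h1, h2⟩ := Set.exists_mem_notMem_of_ncard_lt_ncard h (Set.toFinite _)
  exact ⟨x, h1, h2⟩

/-- the state of the walk -/
structure St (F1 F2 : SimpleGraph V) (A : Set V) (b d a : V) (F : SimpleGraph V) : Prop where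
  le : ∀ u v, F.Adj u v → F1.Adj u v ∨ F2.Adj u v
  ab : a ≠ b
  ad : a ≠ d
  dd : dg F d = 1
  db : dg F b = 2
  da : dg F a = 1 ∨ (dg F a = 3 ∧ dg F2 a = 2)
  dv : ∀ v, v ≠ a → v ≠ d → dg F v = 0 ∨ dg F v = 2
  dA : ∀ v ∈ A, v ≠ a → v ≠ d → dg F v = 2

theorem walk_ind (F1 F2 : SimpleGraph V) (A : Set V) (b d : V) (hbd : b ≠ d)
    (h1d : dg F1 d = 0) (h2b : dg F2 b = 0)
    (h2 : ∀ v, dg F2 v = 0 ∨ dg F2 v = 2) (h2A : ∀ v ∈ A, dg F2 v = 2)
    (h1A : ∀ v ∈ A, dg F1 v = 2) :
    ∀ (n : ℕ) (F : SimpleGraph V) (a : V), ms F F2 ≤ n → St F1 F2 A b d a F →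
      ∃ F' : SimpleGraph V, (∀ u v, F'.Adj u v → F1.Adj u v ∨ F2.Adj u v) ∧
        (((∀ v, dg F' v = 0 ∨ dg F' v = 2) ∧ (∀ v ∈ A, dg F' v = 2) ∧ dg F' b = 2 ∧
            dg F' d = 2) ∨
          (dg F' b = 1 ∧ dg F' d = 1 ∧ (∀ v, v ≠ b → v ≠ d → dg F' v = 0 ∨ dg F' v = 2) ∧
            (∀ v ∈ A, dg F' v = 2))) := by
  intro n
  have hAb : b ∉ A := fun h => by have := h2A b h; omega
  have hAd : d ∉ A := fun h => by have := h1A d h; omega
  induction n with
  | zero =>
    intro F a hn hS
    exfalso
    -- the graphs agree, but the degrees at `d` differ or the active vertex is wrong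
    have hE : ∀ u v, F.Adj u v ↔ F2.Adj u v := by
      intro u v
      by_contra hc
      have h0 : ms F F2 = 0 := Nat.le_zero.mp hn
      unfold ms at h0
      rw [Set.ncard_eq_zero (Set.toFinite _)] at h0
      have : (u, v) ∈ ({p : V × V | ¬ (F.Adj p.1 p.2 ↔ F2.Adj p.1 p.2)}) := hc
      rw [h0] at this
      exact this
    have hF : F = F2 := by
      ext u v
      exact hE u v
    have := hS.dd
    rw [hF] at this
    rcases h2 d with h3 | h3 <;> omega
  | succ n ih =>
    intro F a hn hS
    rcases lt_or_ge (dg F a) (dg F2 a) with hlt | hge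
    · -- add an edge
      obtain ⟨x, hx2, hxF⟩ := ex_of_lt hlt
      have hax : a ≠ x := F2.ne_of_adj hx2
      have h2a : dg F2 a = 2 := by rcases h2 a with h3 | h3 <;> omega
      have hFa : dg F a = 1 := by rcases hS.da with h3 | h3 <;> omega
      have hxb : x ≠ b := by
        rintro rfl
        have := adj_pos hx2.symm
        omega
      have h2x : dg F2 x = 2 := by
        have := adj_pos hx2.symm
        rcases h2 x with h3 | h3 <;> omega
      have la : dg (addE F a x hax) a = 2 := by rw [dg_add_left F hax hxF, hFa]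
      have lx : dg (addE F a x hax) x = dg F x + 1 := dg_add_right F hax hxF
      have lo : ∀ v, v ≠ a → v ≠ x → dg (addE F a x hax) v = dg F v :=
        fun v h3 h4 => dg_add_other F hax h3 h4
      have hle : ∀ u v, (addE F a x hax).Adj u v → F1.Adj u v ∨ F2.Adj u v := by
        intro u v huv
        rcases huv with h3 | h3 | h3
        · exact hS.le u v h3
        · rw [h3.1, h3.2]; exact Or.inr hx2
        · rw [h3.1, h3.2]; exact Or.inr hx2.symm
      by_cases hxd : x = d
      · subst hxd
        refine ⟨addE F a x hax, hle, Or.inl ⟨?_, ?_, ?_, ?_⟩⟩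
        · intro v
          by_cases hva : v = a
          · subst hva; right; exact la
          · by_cases hvx : v = x
            · subst hvx; right; rw [lx, hS.dd]
            · rw [lo v hva hvx]; exact hS.dv v hva hvx
        · intro v hv
          by_cases hva : v = a
          · subst hva; exact la
          · have hvx : v ≠ x := fun h => hAd (h ▸ hv)
            rw [lo v hva hvx]; exact hS.dA v hv hva hvx
        · rw [lo b hS.ab.symm hbd]; exact hS.db
        · rw [lx, hS.dd]
      · refine ih (addE F a x hax) x ?_ ⟨hle, hxb, hxd, ?_, ?_, ?_, ?_, ?_⟩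
        · have := ms_add_lt F F2 hax hxF hx2
          omega
        · rw [lo d hS.ad.symm (Ne.symm hxd)]; exact hS.dd
        · rw [lo b hS.ab.symm (Ne.symm hxb)]; exact hS.db
        · rw [lx]
          rcases hS.dv x hax.symm hxd with h3 | h3
          · left; omega
          · right; exact ⟨by omega, h2x⟩
        · intro v hvx hvd
          by_cases hva : v = a
          · subst hva; right; exact la
          · rw [lo v hva hvx]; exact hS.dv v hva hvd
        · intro v hv hvx hvd
          by_cases hva : v = a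
          · subst hva; exact la
          · rw [lo v hva hvx]; exact hS.dA v hv hva hvd
    · -- remove an edge
      have hgt : dg F2 a < dg F a := by
        rcases hS.da with h3 | h3 <;> rcases h2 a with h4 | h4 <;> omega
      obtain ⟨x, hxF, hx2⟩ := ex_of_lt hgt
      have hax : a ≠ x := F.ne_of_adj hxF
      have la' := dg_rem_left F hxF
      have lx' := dg_rem_right F hxF
      have la : dg (remE F a x) a = dg F2 a := by
        rcases hS.da with h3 | h3 <;> rcases h2 a with h4 | h4 <;> omega
      have lo : ∀ v, v ≠ a → v ≠ x → dg (remE F a x) v = dg F v :=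
        fun v h3 h4 => dg_rem_other F h3 h4
      have hxd : x ≠ d := by
        rintro rfl
        rcases hS.le a x hxF with h3 | h3
        · have := adj_pos h3.symm
          omega
        · exact hx2 h3
      have hle : ∀ u v, (remE F a x).Adj u v → F1.Adj u v ∨ F2.Adj u v :=
        fun u v huv => hS.le u v huv.1
      have hd' : dg (remE F a x) d = 1 := by
        rw [lo d hS.ad.symm hxd.symm]; exact hS.dd
      by_cases hxb : x = b
      · subst hxb
        refine ⟨remE F a x, hle, Or.inr ⟨?_, hd', ?_, ?_⟩⟩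
        · have := hS.db
          omega
        · intro v hvx hvd
          by_cases hva : v = a
          · subst hva; rw [la]; exact h2 v
          · rw [lo v hva hvx]; exact hS.dv v hva hvd
        · intro v hv
          by_cases hva : v = a
          · subst hva; rw [la]; exact h2A v hv
          · have hvx : v ≠ x := fun h => hAb (h ▸ hv)
            have hvd : v ≠ d := fun h => hAd (h ▸ hv)
            rw [lo v hva hvx]; exact hS.dA v hv hva hvd
      · have hx0 : 0 < dg F x := adj_pos hxF.symm
        have hx2' : dg F x = 2 := by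
          rcases hS.dv x hax.symm hxd with h3 | h3 <;> omega
        refine ih (remE F a x) x ?_ ⟨hle, hxb, hxd, hd', ?_, ?_, ?_, ?_⟩
        · have := ms_rem_lt F F2 hxF hx2
          omega
        · rw [lo b hS.ab.symm (Ne.symm hxb)]; exact hS.db
        · left; omega
        · intro v hvx hvd
          by_cases hva : v = a
          · subst hva; rw [la]; exact h2 v
          · rw [lo v hva hvx]; exact hS.dv v hva hvd
        · intro v hv hvx hvd
          by_cases hva : v = a
          · subst hva; rw [la]; exact h2A v hv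
          · rw [lo v hva hvx]; exact hS.dA v hv hva hvd

/-- closing two ends with a path through unused vertices -/
theorem path_close (G : SimpleGraph V) {c d : V} (p : G.Walk c d) :
    p.IsPath → c ≠ d → ∀ F : SimpleGraph V, F ≤ G → dg F c = 1 → dg F d = 1 →
      ¬ F.Adj c d → (∀ v ∈ p.support, v ≠ c → v ≠ d → dg F v = 0) →
      (∀ v, v ≠ c → v ≠ d → dg F v = 0 ∨ dg F v = 2) →
      ∃ F' : SimpleGraph V, F' ≤ G ∧ (∀ v, dg F' v = 0 ∨ dg F' v = 2) ∧
        dg F' c = 2 ∧ dg F' d = 2 ∧ ∀ v, dg F v = 2 → dg F' v = 2 := by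
  induction p with
  | nil => intro _ h; exact absurd rfl h
  | @cons c x d h q ih =>
    intro hp hcd F hFG hc hd hcd' hin hot
    have hcx : c ≠ x := G.ne_of_adj h
    rw [SimpleGraph.Walk.cons_isPath_iff] at hp
    by_cases hxd : x = d
    · subst hxd
      have lc := dg_add_left F hcx hcd'
      have lx := dg_add_right F hcx hcd'
      have lo : ∀ v, v ≠ c → v ≠ x → dg (addE F c x hcx) v = dg F v :=
        fun v h3 h4 => dg_add_other F hcx h3 h4
      refine ⟨addE F c x hcx, ?_, ?_, by omega, by omega, ?_⟩
      · intro u v huv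
        rcases huv with h3 | h3 | h3
        · exact hFG h3
        · rw [h3.1, h3.2]; exact h
        · rw [h3.1, h3.2]; exact h.symm
      · intro v
        by_cases hvc : v = c
        · subst hvc; right; omega
        · by_cases hvx : v = x
          · subst hvx; right; omega
          · rw [lo v hvc hvx]; exact hot v hvc hvx
      · intro v hv
        have hvc : v ≠ c := by rintro rfl; omega
        have hvx : v ≠ x := by rintro rfl; omega
        rw [lo v hvc hvx]; exact hv
    · have hx0 : dg F x = 0 := hin x (by simp) hcx.symm hxd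
      have hncx : ¬ F.Adj c x := fun h3 => by
        have := adj_pos h3.symm
        omega
      have lc := dg_add_left F hcx hncx
      have lx := dg_add_right F hcx hncx
      have lo : ∀ v, v ≠ c → v ≠ x → dg (addE F c x hcx) v = dg F v :=
        fun v h3 h4 => dg_add_other F hcx h3 h4
      obtain ⟨F', hF1, hF2, hF3, hF4, hF5⟩ := ih hp.1 hxd (addE F c x hcx) (by
        intro u v huv
        rcases huv with h3 | h3 | h3
        · exact hFG h3
        · rw [h3.1, h3.2]; exact h
        · rw [h3.1, h3.2]; exact h.symm) (by omega)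
        (by rw [lo d hcd.symm (Ne.symm hxd)]; exact hd) (by
          rintro (h3 | h3 | h3)
          · have := adj_pos h3
            omega
          · exact hxd h3.2.symm
          · exact hcd h3.2.symm)
        (by
          intro v hv hvx hvd
          have hvc : v ≠ c := fun h3 => hp.2 (h3 ▸ hv)
          rw [lo v hvc hvx]
          exact hin v (by simp [hv]) hvc hvd)
        (by
          intro v hvx hvd
          by_cases hvc : v = c
          · subst hvc; right; omega
          · rw [lo v hvc hvx]; exact hot v hvc hvd)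
      refine ⟨F', hF1, hF2, hF5 c (by omega), hF4, ?_⟩
      intro v hv
      have hvc : v ≠ c := by rintro rfl; omega
      have hvx : v ≠ x := by rintro rfl; omega
      exact hF5 v (by rw [lo v hvc hvx]; exact hv)

/-- **Exchange lemma.** -/
theorem exchange (G : SimpleGraph V) (A : Set V) (b d : V)
    (h1 : Cov G (insert b A)) (h2 : Cov G (insert d A)) (p : G.Walk b d) (hp : p.IsPath)
    (hin : ∀ r ∈ p.support, r ≠ b → r ≠ d → ¬ Cov G (insert r A)) :
    Cov G (insert d (insert b A)) := by
  obtain ⟨F1, hG1, hF1, hA1⟩ := h1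
  obtain ⟨F2, hG2, hF2, hA2⟩ := h2
  by_cases hbd : b = d
  · subst hbd
    exact ⟨F1, hG1, hF1, by simpa using hA1⟩
  by_cases hd1 : dg F1 d = 0
  swap
  · refine ⟨F1, hG1, hF1, ?_⟩
    intro v hv
    rcases hv with rfl | hv
    · rcases hF1 v with h3 | h3
      · exact absurd h3 hd1
      · exact h3
    · exact hA1 v hv
  by_cases hb2 : dg F2 b = 0
  swap
  · refine ⟨F2, hG2, hF2, ?_⟩
    intro v hv
    rcases hv with rfl | rfl | hv
    · exact hA2 v (Set.mem_insert _ _)
    · rcases hF2 v with h3 | h3
      · exact absurd h3 hb2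
      · exact h3
    · exact hA2 v (Set.mem_insert_of_mem _ hv)
  have hr1 : ∀ r ∈ p.support, r ≠ b → r ≠ d → dg F1 r = 0 := by
    intro r hr hrb hrd
    rcases hF1 r with h3 | h3
    · exact h3
    · exfalso
      apply hin r hr hrb hrd
      refine ⟨F1, hG1, hF1, ?_⟩
      intro v hv
      rcases hv with rfl | hv
      · exact h3
      · exact hA1 v (Set.mem_insert_of_mem _ hv)
  have hr2 : ∀ r ∈ p.support, r ≠ b → r ≠ d → dg F2 r = 0 := by
    intro r hr hrb hrd
    rcases hF2 r with h3 | h3
    · exact h3
    · exfalso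
      apply hin r hr hrb hrd
      refine ⟨F2, hG2, hF2, ?_⟩
      intro v hv
      rcases hv with rfl | hv
      · exact h3
      · exact hA2 v (Set.mem_insert_of_mem _ hv)
  have hd2 : dg F2 d = 2 := hA2 d (Set.mem_insert _ _)
  have hb1 : dg F1 b = 2 := hA1 b (Set.mem_insert _ _)
  -- the first step
  obtain ⟨a, ha2, ha1⟩ := ex_of_lt (F := F1) (F2 := F2) (a := d) (by omega)
  have hda : d ≠ a := F2.ne_of_adj ha2
  have hab : a ≠ b := by
    rintro rfl
    have := adj_pos ha2.symm
    omega
  have h2a : dg F2 a = 2 := by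
    have := adj_pos ha2.symm
    rcases hF2 a with h3 | h3
    · unfold dg at this; omega
    · exact h3
  have ld := dg_add_left F1 hda ha1
  have la := dg_add_right F1 hda ha1
  have lo : ∀ v, v ≠ d → v ≠ a → dg (addE F1 d a hda) v = dg F1 v :=
    fun v h3 h4 => dg_add_other F1 hda h3 h4
  obtain ⟨F', hle, hF'⟩ := walk_ind F1 F2 A b d hbd hd1 hb2 hF2
    (fun v hv => hA2 v (Set.mem_insert_of_mem _ hv))
    (fun v hv => hA1 v (Set.mem_insert_of_mem _ hv)) _ (addE F1 d a hda) a le_rfl
    ⟨by
      intro u v huv
      rcases huv with h3 | h3 | h3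
      · exact Or.inl h3
      · rw [h3.1, h3.2]; exact Or.inr ha2
      · rw [h3.1, h3.2]; exact Or.inr ha2.symm,
      hab, hda.symm, by omega, by rw [lo b hbd hab.symm]; exact hb1,
      by
        rcases hF1 a with h3 | h3
        · left; unfold dg at la ⊢; omega
        · right; unfold dg at la h2a ⊢; omega,
      by
        intro v hva hvd
        rw [lo v hvd hva]; exact hF1 v,
      by
        intro v hv hva hvd
        rw [lo v hvd hva]; exact hA1 v (Set.mem_insert_of_mem _ hv)⟩
  have hF'G : F' ≤ G := by
    intro u v huv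
    rcases hle u v huv with h3 | h3
    · exact hG1 h3
    · exact hG2 h3
  rcases hF' with ⟨k1, k2, k3, k4⟩ | ⟨k1, k2, k3, k4⟩
  · refine ⟨F', hF'G, k1, ?_⟩
    intro v hv
    rcases hv with rfl | rfl | hv
    · exact k4
    · exact k3
    · exact k2 v hv
  · have hz : ∀ v ∈ p.support, v ≠ b → v ≠ d → dg F' v = 0 := by
      intro v hv hvb hvd
      by_contra hc
      have : 0 < dg F' v := Nat.pos_of_ne_zero hc
      unfold dg at this
      rw [Set.ncard_pos (Set.toFinite _)] at this
      obtain ⟨u, hu⟩ := this
      rcases hle v u hu with h3 | h3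
      · have := adj_pos h3
        have := hr1 v hv hvb hvd
        omega
      · have := adj_pos h3
        have := hr2 v hv hvb hvd
        omega
    have hnbd : ¬ F'.Adj b d := by
      intro h3
      rcases hle b d h3 with h4 | h4
      · have := adj_pos h4.symm
        omega
      · have := adj_pos h4
        omega
    obtain ⟨F'', m1, m2, m3, m4, m5⟩ := path_close G p hp hbd F' hF'G k1 k2 hnbd hz k3
    refine ⟨F'', m1, m2, ?_⟩
    intro v hv
    rcases hv with rfl | rfl | hv
    · exact m4
    · exact m3
    · exact m5 v (k4 v hv)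

/-- walk form -/
theorem exchange_walk (G : SimpleGraph V) (A : Set V) (b d : V)
    (h1 : Cov G (insert b A)) (h2 : Cov G (insert d A)) (p : G.Walk b d)
    (hin : ∀ r ∈ p.support, r ≠ b → r ≠ d → ¬ Cov G (insert r A)) :
    Cov G (insert d (insert b A)) := by
  classical
  exact exchange G A b d h1 h2 p.bypass p.bypass_isPath
    (fun r hr => hin r (p.support_bypass_subset_support hr))

end

end H58E
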