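import Pool.Agent.Lib.H58E.Exch5b
import Pool.Agent.Lib.H20TD.B
import Pool.Agent.Lib.H8F.F5
import Pool.Agent.Lib.H32L5.D

/-! The plane 2-factor with all cycles of length at least five: abstract theorem. -/

set_option autoImplicit false

namespace H58E

open Finset H98P H63F H98M H30F H98TF

variable {V : Type*} [Fintype V] [DecidableEq V]

theorem ncard_nb {F : Finset (Sym2 V)} (hF : ∀ e ∈ F, ¬ e.IsDiag) (v : V) :
    ((SimpleGraph.fromEdgeSet (F : Set (Sym2 V))).neighborSet v).ncard = H85TF.dg F v := by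
  have h1 : (SimpleGraph.fromEdgeSet (F : Set (Sym2 V))).neighborSet v =
      ((univ.filter fun w => s(v, w) ∈ F : Finset V) : Set V) := by
    ext w
    rw [SimpleGraph.mem_neighborSet, SimpleGraph.fromEdgeSet_adj, mem_coe, mem_coe, mem_filter]
    constructor
    · exact fun h => ⟨mem_univ _, h.1⟩
    · refine fun h => ⟨h.2, ?_⟩
      rintro rfl
      exact hF _ h.2 (by simp)
  have h2 : (F.filter fun e => v ∈ e) = (univ.filter fun w => s(v, w) ∈ F).image fun w => s(v, w) := by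
    ext e
    rw [mem_filter, mem_image]
    constructor
    · rintro ⟨h3, h4⟩
      obtain ⟨w, rfl⟩ := Sym2.mem_iff_exists.1 h4
      exact ⟨w, mem_filter.2 ⟨mem_univ _, h3⟩, rfl⟩
    · rintro ⟨w, h3, rfl⟩
      exact ⟨(mem_filter.1 h3).2, Sym2.mem_mk_left _ _⟩
  rw [h1, Set.ncard_coe_finset]
  unfold H85TF.dg
  rw [h2, card_image_of_injective]
  intro a b hab
  rcases Sym2.eq_iff.1 hab with h | h
  · exact h.2
  · exact h.2.trans h.1

theorem mem_adj {F : Finset (Sym2 V)} (hF : ∀ e ∈ F, ¬ e.IsDiag) (x y : V) :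
    (SimpleGraph.fromEdgeSet (F : Set (Sym2 V))).Adj x y ↔ s(x, y) ∈ F := by
  rw [SimpleGraph.fromEdgeSet_adj, mem_coe]
  refine ⟨fun h => h.1, fun h => ⟨h, ?_⟩⟩
  rintro rfl
  exact hF _ h (by simp)

theorem cov5_iff {E : Finset (Sym2 V)} (hE : ∀ e ∈ E, ¬ e.IsDiag) (A : Finset V) :
    H8F.Cov5 E A ↔ Cov5 (SimpleGraph.fromEdgeSet (E : Set (Sym2 V))) (A : Set V) := by
  classical
  constructor
  · rintro ⟨F, hFE, h1, h2, h3, h4⟩
    have hF : ∀ e ∈ F, ¬ e.IsDiag := fun e he => hE e (hFE he)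
    refine ⟨SimpleGraph.fromEdgeSet (F : Set (Sym2 V)),
      SimpleGraph.fromEdgeSet_mono (by exact_mod_cast hFE), ?_, ?_, ?_, ?_⟩
    · intro v
      rw [ncard_nb hF]
      exact h1 v
    · intro v hv
      rw [ncard_nb hF]
      exact h4 v (by exact_mod_cast hv)
    · intro u v w k1 k2 k3
      rw [mem_adj hF] at k1 k2 k3
      exact h2 u v w k1 k2 (by rw [Sym2.eq_swap]; exact k3)
    · intro u v w x n1 n2 k1 k2 k3 k4
      rw [mem_adj hF] at k1 k2 k3 k4
      exact h3 u v w x n1 n2 k1 k2 k3 k4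
  · rintro ⟨F, hFE, h1, h2, h3, h4⟩
    have hsub : ∀ e ∈ F.edgeSet, e ∈ E := by
      intro e he
      have := SimpleGraph.edgeSet_mono hFE he
      rw [SimpleGraph.edgeSet_fromEdgeSet] at this
      exact_mod_cast this.1
    set X := E.filter fun e => e ∈ F.edgeSet with hX
    have hXE : X ⊆ E := filter_subset _ _
    have hXd : ∀ e ∈ X, ¬ e.IsDiag := fun e he => hE e (hXE he)
    have hXm : ∀ x y, s(x, y) ∈ X ↔ F.Adj x y := by
      intro x y
      rw [hX, mem_filter, SimpleGraph.mem_edgeSet]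
      exact ⟨fun h => h.2, fun h => ⟨hsub _ h, h⟩⟩
    have hXF : SimpleGraph.fromEdgeSet (X : Set (Sym2 V)) = F := by
      ext x y
      rw [mem_adj hXd, hXm]
    refine ⟨X, hXE, ?_, ?_, ?_, ?_⟩
    · intro v
      rw [← ncard_nb hXd, hXF]
      exact h1 v
    · intro x y z k1 k2 k3
      rw [hXm] at k1 k2 k3
      exact h3 x y z k1 k2 k3.symm
    · intro x y z w n1 n2 k1 k2 k3 k4
      rw [hXm] at k1 k2 k3 k4
      exact h4 x y z w n1 n2 k1 k2 k3 k4
    · intro v hv
      rw [← ncard_nb hXd, hXF]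
      exact h2 v (by exact_mod_cast hv)

theorem not_diag {G : Finset (Sym2 V)} (hG : G ⊆ LW univ) : ∀ e ∈ G, ¬ e.IsDiag := by
  intro e he hd
  induction e with
  | _ x y =>
    have h : x = y := by simpa using hd
    subst h
    exact H8F.notMem_diag hG x he

/-- (E) for cycles of length at least five, set form -/
theorem exch5_set {G : Finset (Sym2 V)} (hG : ∀ e ∈ G, ¬ e.IsDiag) (A : Finset V) (b d : V)
    (U : Finset V) (hb : H8F.Cov5 G (insert b A)) (hd : H8F.Cov5 G (insert d A)) (hbU : b ∈ U)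
    (hdU : d ∈ U) (hU : ¬ Disc U G) (h : ∀ u ∈ U, u ≠ b → u ≠ d → ¬ H8F.Cov5 G (insert u A)) :
    H8F.Cov5 G (insert b (insert d A)) := by
  obtain ⟨p, hp⟩ := H20TD.exists_walk hU hbU hdU
  rw [cov5_iff hG] at hb hd ⊢
  have h1 := exchange5_walk (SimpleGraph.fromEdgeSet (G : Set (Sym2 V))) (A : Set V) b d
    (by simpa using hb) (by simpa using hd) p
    (fun r hr h1 h2 h3 => h r (hp r hr) h1 h2 (by rw [cov5_iff hG]; simpa using h3))
  rw [Set.insert_comm] at h1
  simpa using h1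

/-- **Plane 2-factor with all cycles of length at least five.** -/
theorem plane_five {cross : Sym2 V → Sym2 V → Prop} (hsymm : ∀ e f, cross e f → cross f e)
    (hHD : ∀ W, HD cross W) (h5 : 5 ≤ Fintype.card V) :
    ∃ G : Finset (Sym2 V), G ⊆ LW univ ∧ Plane cross G ∧ TC G ∧ H8F.Cov5 G univ := by
  refine H8F.plane_five hsymm hHD h5 ?_ ?_
  · intro G hG _ A b d U h1 h2 h3 h4 h5 h6
    exact exch5_set (not_diag hG) A b d U h1 h2 h3 h4 h5 h6
  · intro G hG hT v hv
    exact H32L5.class5 (not_diag hG) h5 hT.1 hT.2 v hv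

end H58E
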