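import Pool.Agent.Lib.H58E.Abs5
import Pool.Agent.Lib.H63T.Fex
import Pool.Agent.Lib.H63T.Trim

/-! Plane subdrawings with exactly `2n - 3` edges and a 2-factor with all cycles of length at
least five: abstract theorem. -/

set_option autoImplicit false

namespace H58E

open Finset H98P H63F H98M H30F H98TF

variable {V : Type*} [Fintype V] [DecidableEq V]

/-- **Exactly `2n - 3` edges, 2-connected, with a 2-factor whose cycles have length at least
five.** -/
theorem plane_five_exact {cross : Sym2 V → Sym2 V → Prop} (hsymm : ∀ e f, cross e f → cross f e)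
    (hHD : ∀ W, HD cross W) (h5 : 5 ≤ Fintype.card V) :
    ∃ H : Finset (Sym2 V), H ⊆ LW univ ∧ Plane cross H ∧ TC H ∧
      H.card = 2 * Fintype.card V - 3 ∧ H8F.Cov5 H univ := by
  obtain ⟨x, y, hxy⟩ := Fintype.exists_pair_of_one_lt_card (α := V) (by omega)
  obtain ⟨S, G, -, hSG, hGL, hGp, hcard, hac⟩ := H63T.functor_2n3 hsymm hHD ⟨x, y, hxy⟩ H8F.X5
    (fun G G' hGG hG' _ _ W hW => H8F.x5_anti h5 hGG hG' hW) (fun G W _ _ _ h => H8F.x5_disc h)
  have hSL : S ⊆ LW univ := hSG.trans hGL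
  have hgood : TC S ∧ H8F.Cov5 S univ := by
    by_contra hg
    refine hac (H8F.ac_x5 h5 hSL ?_ ?_ hg)
    · intro _ A b d U h1 h2 h3 h4 h5 h6
      exact exch5_set (not_diag hSL) A b d U h1 h2 h3 h4 h5 h6
    · intro hT v hv
      exact H32L5.class5 (not_diag hSL) h5 hT.1 hT.2 v hv
  obtain ⟨hT, F, hFS, k1, k2, k3, k4⟩ := hgood
  have hTG : TC G := tc_mono hSG hT
  obtain ⟨H, hFH, hHG, hc, hc2, hH⟩ := H63T.trim_exact G F (not_diag hGL) (hFS.trans hSG)
    (fun v => by
      have := k1 v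
      unfold H85TF.dg at this
      omega) hTG.1 hTG.2 (by omega) hcard
  exact ⟨H, hHG.trans hGL, H98Z.plane_sub hHG hGp, ⟨hc, hc2⟩, hH, F, hFH, k1, k2, k3, k4⟩

end H58E
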