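import Pool.Agent.Lib.H58E.Exch

/-! Exchange lemma for coverings by disjoint cycles of length at least four (no triangle). -/

namespace H58E

open SimpleGraph

set_option linter.unusedSectionVars false

variable {V : Type*}

/-- no triangle -/
def NT (F : SimpleGraph V) : Prop := ∀ u v w, F.Adj u v → F.Adj v w → F.Adj w u → False

/-- `A` is covered by pairwise disjoint cycles of `G`, none of them a triangle -/
def Cov4 (G : SimpleGraph V) (A : Set V) : Prop :=
  ∃ F : SimpleGraph V, F ≤ G ∧
    (∀ v, (F.neighborSet v).ncard = 0 ∨ (F.neighborSet v).ncard = 2) ∧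
    (∀ v ∈ A, (F.neighborSet v).ncard = 2) ∧
    ∀ u v w, F.Adj u v → F.Adj v w → F.Adj w u → False

section
variable [Finite V]

theorem nt_mono {F F' : SimpleGraph V} (h : ∀ u v, F'.Adj u v → F.Adj u v) (hF : NT F) : NT F' :=
  fun u v w h1 h2 h3 => hF u v w (h _ _ h1) (h _ _ h2) (h _ _ h3)

theorem nt_rem {F : SimpleGraph V} (hF : NT F) (a x : V) : NT (remE F a x) :=
  nt_mono (fun _ _ h => h.1) hF

theorem nt_add {F : SimpleGraph V} (hF : NT F) {a x : V} (h : a ≠ x)
    (hz : ∀ z, F.Adj a z → F.Adj x z → False) : NT (addE F a x h) := by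
  intro u v w h1 h2 h3
  rcases h1 with h1 | ⟨h1, h1'⟩ | ⟨h1, h1'⟩
  · rcases h2 with h2 | ⟨h2, h2'⟩ | ⟨h2, h2'⟩
    · rcases h3 with h3 | ⟨h3, h3'⟩ | ⟨h3, h3'⟩
      · exact hF u v w h1 h2 h3
      · subst h3 h3'
        exact hz v h2.symm h1
      · subst h3 h3'
        exact hz v h1 h2.symm
    · subst h2 h2'
      rcases h3 with h3 | ⟨h3, h3'⟩ | ⟨h3, h3'⟩
      · exact hz u h1.symm h3
      · exact h h3.symm
      · exact F.ne_of_adj h1 h3'
    · subst h2 h2'
      rcases h3 with h3 | ⟨h3, h3'⟩ | ⟨h3, h3'⟩
      · exact hz u h3 h1.symm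
      · exact F.ne_of_adj h1 h3'
      · exact h h3
  · subst h1 h1'
    rcases h2 with h2 | ⟨h2, h2'⟩ | ⟨h2, h2'⟩
    · rcases h3 with h3 | ⟨h3, h3'⟩ | ⟨h3, h3'⟩
      · exact hz w h3.symm h2
      · exact h h3'
      · exact F.ne_of_adj h2 h3.symm
    · exact h h2.symm
    · subst h2'
      rcases h3 with h3 | ⟨h3, h3'⟩ | ⟨h3, h3'⟩
      · exact F.ne_of_adj h3 rfl
      · exact h h3'
      · exact h h3
  · subst h1 h1'
    rcases h2 with h2 | ⟨h2, h2'⟩ | ⟨h2, h2'⟩
    · rcases h3 with h3 | ⟨h3, h3'⟩ | ⟨h3, h3'⟩
      · exact hz w h2 h3.symm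
      · exact F.ne_of_adj h2 h3.symm
      · exact h h3'.symm
    · subst h2'
      rcases h3 with h3 | ⟨h3, h3'⟩ | ⟨h3, h3'⟩
      · exact F.ne_of_adj h3 rfl
      · exact h h3.symm
      · exact h h3'.symm
    · exact h h2

/-- the state of the walk -/
structure S4 (F1 F2 : SimpleGraph V) (A : Set V) (b d a : V) (F : SimpleGraph V) : Prop where
  le : ∀ u v, F.Adj u v → F1.Adj u v ∨ F2.Adj u v
  nt : NT F
  ab : a ≠ b
  ad : a ≠ d
  dd : dg F d = 1
  db : dg F b = 2
  da : dg F a = 1
  dv : ∀ v, v ≠ a → v ≠ d → dg F v = 0 ∨ dg F v = 2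
  dA : ∀ v ∈ A, v ≠ a → v ≠ d → dg F v = 2

/-- result of the walk -/
def Res (F1 F2 : SimpleGraph V) (A : Set V) (b d : V) (F' : SimpleGraph V) : Prop :=
  (∀ u v, F'.Adj u v → F1.Adj u v ∨ F2.Adj u v) ∧ NT F' ∧
    (((∀ v, dg F' v = 0 ∨ dg F' v = 2) ∧ (∀ v ∈ A, dg F' v = 2) ∧ dg F' b = 2 ∧
        dg F' d = 2) ∨
      (dg F' b = 1 ∧ dg F' d = 1 ∧ (∀ v, v ≠ b → v ≠ d → dg F' v = 0 ∨ dg F' v = 2) ∧
        (∀ v ∈ A, dg F' v = 2)))

theorem ex_nbr_ne {F F2 : SimpleGraph V} {x a : V} (hF : dg F x = 2) (h2 : dg F2 x = 2)
    (ha : F2.Adj x a) (haF : ¬ F.Adj x a) : ∃ z, F.Adj x z ∧ ¬ F2.Adj x z := by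
  have h3 : ((F2.neighborSet x) \ {a}).ncard < (F.neighborSet x).ncard := by
    have h4 := Set.ncard_sdiff_singleton_add_one (s := F2.neighborSet x) (a := a) ha
      (Set.toFinite _)
    unfold dg at hF h2
    omega
  obtain ⟨z, hz1, hz2⟩ := Set.exists_mem_notMem_of_ncard_lt_ncard h3 (Set.toFinite _)
  refine ⟨z, hz1, fun h4 => hz2 ⟨h4, ?_⟩⟩
  intro h5
  rw [Set.mem_singleton_iff] at h5
  subst h5
  exact haF hz1

theorem walk4 (F1 F2 : SimpleGraph V) (A : Set V) (b d : V) (hbd : b ≠ d)
    (h1d : dg F1 d = 0) (h2b : dg F2 b = 0)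
    (h2 : ∀ v, dg F2 v = 0 ∨ dg F2 v = 2) (h2A : ∀ v ∈ A, dg F2 v = 2)
    (h1A : ∀ v ∈ A, dg F1 v = 2) (h2nt : NT F2) :
    ∀ (n : ℕ) (F : SimpleGraph V) (a : V), ms F F2 ≤ n → S4 F1 F2 A b d a F →
      ∃ F' : SimpleGraph V, Res F1 F2 A b d F' := by
  intro n
  have hAb : b ∉ A := fun h => by have := h2A b h; omega
  have hAd : d ∉ A := fun h => by have := h1A d h; omega
  induction n with
  | zero =>
    intro F a hn hS
    exfalso
    have hE : ∀ u v, F.Adj u v ↔ F2.Adj u v := by
      intro u v
      by_contra hc
      have h0 : ms F F2 = 0 := Nat.le_zero.mp hn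
      unfold ms at h0
      rw [Set.ncard_eq_zero (Set.toFinite _)] at h0
      have : (u, v) ∈ ({p : V × V | ¬ (F.Adj p.1 p.2 ↔ F2.Adj p.1 p.2)}) := hc
      rw [h0] at this
      exact this
    have hF : F = F2 := by
      ext u v
      exact hE u v
    have := hS.dd
    rw [hF] at this
    rcases h2 d with h3 | h3 <;> omega
  | succ n ih =>
    intro F a hn hS
    have hda := hS.da
    obtain ⟨y, hy⟩ : ∃ y, F.neighborSet a = {y} := by
      unfold dg at hda
      exact Set.ncard_eq_one.mp hda
    have hay : F.Adj a y := by
      have : y ∈ F.neighborSet a := by rw [hy]; rfl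
      exact this
    have hyu : ∀ z, F.Adj a z → z = y := by
      intro z hz
      have : z ∈ F.neighborSet a := hz
      rw [hy] at this
      exact this
    have hd2 : ∀ z, F.Adj d z → F2.Adj d z := by
      intro z hz
      rcases hS.le d z hz with h3 | h3
      · have := adj_pos h3
        omega
      · exact h3
    have hya : y ≠ a := (F.ne_of_adj hay).symm
    rcases h2 a with h2a | h2a
    · -- `a` is not covered by `F2`: remove `a y`
      have hn2 : ¬ F2.Adj a y := fun h => by have := adj_pos h; omega
      have hyd : y ≠ d := by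
        rintro rfl
        have := adj_pos (hd2 a hay.symm).symm
        omega
      have la := dg_rem_left F hay
      have lx := dg_rem_right F hay
      have lo : ∀ v, v ≠ a → v ≠ y → dg (remE F a y) v = dg F v :=
        fun v h3 h4 => dg_rem_other F h3 h4
      have hle : ∀ u v, (remE F a y).Adj u v → F1.Adj u v ∨ F2.Adj u v :=
        fun u v huv => hS.le u v huv.1
      have hA' : a ∉ A := fun h => by have := h2A a h; omega
      have hdd : dg (remE F a y) d = 1 := by rw [lo d hS.ad.symm hyd.symm]; exact hS.dd
      by_cases hyb : y = b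
      · subst hyb
        refine ⟨remE F a y, hle, nt_rem hS.nt a y, Or.inr ⟨?_, hdd, ?_, ?_⟩⟩
        · have := hS.db
          omega
        · intro v h3 h4
          by_cases hva : v = a
          · subst hva; left; omega
          · rw [lo v hva h3]; exact hS.dv v hva h4
        · intro v hv
          have hva : v ≠ a := fun h => hA' (h ▸ hv)
          have hvy : v ≠ y := fun h => hAb (h ▸ hv)
          have hvd : v ≠ d := fun h => hAd (h ▸ hv)
          rw [lo v hva hvy]; exact hS.dA v hv hva hvd
      · have hy2 : dg F y = 2 := by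
          have := adj_pos hay.symm
          rcases hS.dv y hya hyd with h3 | h3 <;> omega
        refine ih (remE F a y) y ?_ ⟨hle, nt_rem hS.nt a y, hyb, hyd, hdd, ?_, ?_, ?_, ?_⟩
        · have := ms_rem_lt F F2 hay hn2
          omega
        · rw [lo b hS.ab.symm (Ne.symm hyb)]; exact hS.db
        · omega
        · intro v h3 h4
          by_cases hva : v = a
          · subst hva; left; omega
          · rw [lo v hva h3]; exact hS.dv v hva h4
        · intro v hv h3 h4
          have hva : v ≠ a := fun h => hA' (h ▸ hv)
          rw [lo v hva h3]; exact hS.dA v hv hva h4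
    · -- `a` is covered by `F2`: add a suitable edge `a x`
      obtain ⟨x, hx2, hxF, hxy, hxd'⟩ : ∃ x, F2.Adj a x ∧ ¬ F.Adj a x ∧
          ¬ (F.Adj x y ∧ F2.Adj x y) ∧ (x = d → ¬ F.Adj x y) := by
        by_cases h2y : F2.Adj a y
        · obtain ⟨x, hx2, hxF⟩ := ex_of_lt (F := F) (F2 := F2) (a := a) (by omega)
          refine ⟨x, hx2, hxF, ?_, ?_⟩
          · rintro ⟨-, h4⟩
            exact h2nt a x y hx2 h4 h2y.symm
          · rintro rfl h4
            exact h2nt a x y hx2 (hd2 y h4) h2y.symm
        · have hyd : y ≠ d := by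
            rintro rfl
            exact h2y (hd2 a hay.symm).symm
          have hy2 : dg F y = 2 := by
            have := adj_pos hay.symm
            rcases hS.dv y hya hyd with h3 | h3 <;> omega
          have h3 : ((F.neighborSet y) \ {a}).ncard < (F2.neighborSet a).ncard := by
            have h4 := Set.ncard_sdiff_singleton_add_one (s := F.neighborSet y) (a := a)
              hay.symm (Set.toFinite _)
            unfold dg at hy2 h2a
            omega
          obtain ⟨x, hx1, hx3⟩ := Set.exists_mem_notMem_of_ncard_lt_ncard h3 (Set.toFinite _)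
          have hx1' : F2.Adj a x := hx1
          have hxa : x ≠ a := (F2.ne_of_adj hx1').symm
          have hxy : ¬ F.Adj x y := by
            intro h4
            exact hx3 ⟨h4.symm, by rw [Set.mem_singleton_iff]; exact hxa⟩
          refine ⟨x, hx1', fun h4 => ?_, fun h4 => hxy h4.1, fun _ => hxy⟩
          have := hyu x h4
          subst this
          exact h2y hx1'
      have hax : a ≠ x := F2.ne_of_adj hx2
      have hxb : x ≠ b := by
        rintro rfl
        have := adj_pos hx2.symm
        omega
      have h2x : dg F2 x = 2 := by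
        have := adj_pos hx2.symm
        rcases h2 x with h3 | h3 <;> omega
      by_cases hxd : x = d
      · subst hxd
        have la := dg_add_left F hax hxF
        have lx := dg_add_right F hax hxF
        have lo : ∀ v, v ≠ a → v ≠ x → dg (addE F a x hax) v = dg F v :=
          fun v h3 h4 => dg_add_other F hax h3 h4
        have hdd := hS.dd
        refine ⟨addE F a x hax, ?_, ?_, Or.inl ⟨?_, ?_, ?_, ?_⟩⟩
        · intro u v huv
          rcases huv with h3 | h3 | h3
          · exact hS.le u v h3
          · rw [h3.1, h3.2]; exact Or.inr hx2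
          · rw [h3.1, h3.2]; exact Or.inr hx2.symm
        · refine nt_add hS.nt hax ?_
          intro z hz1 hz2
          have := hyu z hz1
          subst this
          exact hxd' rfl hz2
        · intro v
          by_cases hva : v = a
          · subst hva; right; omega
          · by_cases hvx : v = x
            · subst hvx; right; omega
            · rw [lo v hva hvx]; exact hS.dv v hva hvx
        · intro v hv
          by_cases hva : v = a
          · subst hva; omega
          · have hvx : v ≠ x := fun h => hAd (h ▸ hv)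
            rw [lo v hva hvx]; exact hS.dA v hv hva hvx
        · rw [lo b hS.ab.symm hbd]; exact hS.db
        · omega
      · rcases hS.dv x hax.symm hxd with hx0 | hx0
        · -- new vertex of degree one
          have la := dg_add_left F hax hxF
          have lx := dg_add_right F hax hxF
          have lo : ∀ v, v ≠ a → v ≠ x → dg (addE F a x hax) v = dg F v :=
            fun v h3 h4 => dg_add_other F hax h3 h4
          refine ih (addE F a x hax) x ?_ ⟨?_, ?_, hxb, hxd, ?_, ?_, ?_, ?_, ?_⟩
          · have := ms_add_lt F F2 hax hxF hx2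
            omega
          · intro u v huv
            rcases huv with h3 | h3 | h3
            · exact hS.le u v h3
            · rw [h3.1, h3.2]; exact Or.inr hx2
            · rw [h3.1, h3.2]; exact Or.inr hx2.symm
          · refine nt_add hS.nt hax ?_
            intro z _ hz2
            have := adj_pos hz2
            omega
          · rw [lo d hS.ad.symm (Ne.symm hxd)]; exact hS.dd
          · rw [lo b hS.ab.symm (Ne.symm hxb)]; exact hS.db
          · omega
          · intro v hvx hvd
            by_cases hva : v = a
            · subst hva; right; omega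
            · rw [lo v hva hvx]; exact hS.dv v hva hvd
          · intro v hv hvx hvd
            by_cases hva : v = a
            · subst hva; omega
            · rw [lo v hva hvx]; exact hS.dA v hv hva hvd
        · -- remove an edge `x z` and add `a x`
          obtain ⟨z, hzF, hz2, hzy⟩ : ∃ z, F.Adj x z ∧ ¬ F2.Adj x z ∧ (F.Adj x y → z = y) := by
            by_cases h4 : F.Adj x y
            · exact ⟨y, h4, fun h5 => hxy ⟨h4, h5⟩, fun _ => rfl⟩
            · obtain ⟨z, hz1, hz2⟩ := ex_nbr_ne hx0 h2x hx2.symm (fun h5 => hxF h5.symm)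
              exact ⟨z, hz1, hz2, fun h5 => absurd h5 h4⟩
          have hxz : x ≠ z := F.ne_of_adj hzF
          have hza : z ≠ a := by
            rintro rfl
            exact hxF hzF.symm
          have hzd : z ≠ d := by
            rintro rfl
            exact hz2 (hd2 x hzF.symm).symm
          have hz22 : dg F z = 2 := by
            have := adj_pos hzF.symm
            rcases hS.dv z hza hzd with h3 | h3 <;> omega
          have mx := dg_rem_left F hzF
          have mz := dg_rem_right F hzF
          have mo : ∀ v, v ≠ x → v ≠ z → dg (remE F x z) v = dg F v :=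
            fun v h3 h4 => dg_rem_other F h3 h4
          have hmF : ¬ (remE F x z).Adj a x := fun h => hxF h.1
          have la := dg_add_left (remE F x z) hax hmF
          have lx := dg_add_right (remE F x z) hax hmF
          have lo : ∀ v, v ≠ a → v ≠ x → dg (addE (remE F x z) a x hax) v =
              dg (remE F x z) v := fun v h3 h4 => dg_add_other _ hax h3 h4
          have ma := mo a hax hza.symm
          have hle : ∀ u v, (addE (remE F x z) a x hax).Adj u v →
              F1.Adj u v ∨ F2.Adj u v := by
            intro u v huv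
            rcases huv with h3 | h3 | h3
            · exact hS.le u v h3.1
            · rw [h3.1, h3.2]; exact Or.inr hx2
            · rw [h3.1, h3.2]; exact Or.inr hx2.symm
          have hnt : NT (addE (remE F x z) a x hax) := by
            refine nt_add (nt_rem hS.nt x z) hax ?_
            intro t ht1 ht2
            have h5 := hyu t ht1.1
            subst h5
            have h6 := hzy ht2.1
            subst h6
            exact ht2.2.1 ⟨rfl, rfl⟩
          have hdd : dg (addE (remE F x z) a x hax) d = 1 := by
            rw [lo d hS.ad.symm (Ne.symm hxd), mo d (Ne.symm hxd) hzd.symm]; exact hS.dd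
          have hzz : dg (addE (remE F x z) a x hax) z = 1 := by
            rw [lo z hza hxz.symm]; omega
          by_cases hzb : z = b
          · subst hzb
            refine ⟨_, hle, hnt, Or.inr ⟨hzz, hdd, ?_, ?_⟩⟩
            · intro v h3 h4
              by_cases hva : v = a
              · subst hva; right; omega
              · by_cases hvx : v = x
                · subst hvx; right; omega
                · rw [lo v hva hvx, mo v hvx h3]; exact hS.dv v hva h4
            · intro v hv
              have hvz : v ≠ z := fun h => hAb (h ▸ hv)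
              have hvd : v ≠ d := fun h => hAd (h ▸ hv)
              by_cases hva : v = a
              · subst hva; omega
              · by_cases hvx : v = x
                · subst hvx; omega
                · rw [lo v hva hvx, mo v hvx hvz]; exact hS.dA v hv hva hvd
          · refine ih _ z ?_ ⟨hle, hnt, hzb, hzd, hdd, ?_, hzz, ?_, ?_⟩
            · have e1 := ms_add_lt (remE F x z) F2 hax hmF hx2
              have e2 := ms_rem_lt F F2 hzF hz2
              omega
            · rw [lo b hS.ab.symm (Ne.symm hxb), mo b (Ne.symm hxb) (Ne.symm hzb)]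
              exact hS.db
            · intro v h3 h4
              by_cases hva : v = a
              · subst hva; right; omega
              · by_cases hvx : v = x
                · subst hvx; right; omega
                · rw [lo v hva hvx, mo v hvx h3]; exact hS.dv v hva h4
            · intro v hv h3 h4
              by_cases hva : v = a
              · subst hva; omega
              · by_cases hvx : v = x
                · subst hvx; omega
                · rw [lo v hva hvx, mo v hvx h3]; exact hS.dA v hv hva h4

/-- closing two ends with a path through unused vertices, without a triangle -/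
theorem path_close4 (G : SimpleGraph V) {c d : V} (p : G.Walk c d) :
    p.IsPath → c ≠ d → ∀ F : SimpleGraph V, F ≤ G → NT F → dg F c = 1 → dg F d = 1 →
      ¬ F.Adj c d → (G.Adj c d → ∀ z, F.Adj c z → F.Adj d z → False) →
      (∀ v ∈ p.support, v ≠ c → v ≠ d → dg F v = 0) →
      (∀ v, v ≠ c → v ≠ d → dg F v = 0 ∨ dg F v = 2) →
      ∃ F' : SimpleGraph V, F' ≤ G ∧ NT F' ∧ (∀ v, dg F' v = 0 ∨ dg F' v = 2) ∧
        dg F' c = 2 ∧ dg F' d = 2 ∧ ∀ v, dg F v = 2 → dg F' v = 2 := by
  induction p with
  | nil => intro _ h; exact absurd rfl h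
  | @cons c x d h q ih =>
    intro hp hcd F hFG hnt hc hd hcd' hcn hin hot
    have hcx : c ≠ x := G.ne_of_adj h
    rw [SimpleGraph.Walk.cons_isPath_iff] at hp
    by_cases hxd : x = d
    · subst hxd
      have lc := dg_add_left F hcx hcd'
      have lx := dg_add_right F hcx hcd'
      have lo : ∀ v, v ≠ c → v ≠ x → dg (addE F c x hcx) v = dg F v :=
        fun v h3 h4 => dg_add_other F hcx h3 h4
      refine ⟨addE F c x hcx, ?_, nt_add hnt hcx (hcn h), ?_, by omega, by omega, ?_⟩
      · intro u v huv
        rcases huv with h3 | h3 | h3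
        · exact hFG h3
        · rw [h3.1, h3.2]; exact h
        · rw [h3.1, h3.2]; exact h.symm
      · intro v
        by_cases hvc : v = c
        · subst hvc; right; omega
        · by_cases hvx : v = x
          · subst hvx; right; omega
          · rw [lo v hvc hvx]; exact hot v hvc hvx
      · intro v hv
        have hvc : v ≠ c := by rintro rfl; omega
        have hvx : v ≠ x := by rintro rfl; omega
        rw [lo v hvc hvx]; exact hv
    · have hx0 : dg F x = 0 := hin x (by simp) hcx.symm hxd
      have hncx : ¬ F.Adj c x := fun h3 => by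
        have := adj_pos h3.symm
        omega
      have lc := dg_add_left F hcx hncx
      have lx := dg_add_right F hcx hncx
      have lo : ∀ v, v ≠ c → v ≠ x → dg (addE F c x hcx) v = dg F v :=
        fun v h3 h4 => dg_add_other F hcx h3 h4
      obtain ⟨F', hF1, hF0, hF2, hF3, hF4, hF5⟩ := ih hp.1 hxd (addE F c x hcx) (by
        intro u v huv
        rcases huv with h3 | h3 | h3
        · exact hFG h3
        · rw [h3.1, h3.2]; exact h
        · rw [h3.1, h3.2]; exact h.symm)
        (nt_add hnt hcx (fun z _ h4 => by have := adj_pos h4; omega)) (by omega)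
        (by rw [lo d hcd.symm (Ne.symm hxd)]; exact hd) (by
          rintro (h3 | h3 | h3)
          · have := adj_pos h3
            omega
          · exact hxd h3.2.symm
          · exact hcd h3.2.symm)
        (by
          intro _ z hz1 hz2
          have hzc : z = c := by
            rcases hz1 with h3 | h3 | h3
            · have := adj_pos h3
              omega
            · exact absurd h3.1.symm hcx
            · exact h3.2
          subst hzc
          rcases hz2 with h3 | h3 | h3
          · exact hcd' h3.symm
          · exact hcd h3.1.symm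
          · exact hxd h3.1.symm)
        (by
          intro v hv hvx hvd
          have hvc : v ≠ c := fun h3 => hp.2 (h3 ▸ hv)
          rw [lo v hvc hvx]
          exact hin v (by simp [hv]) hvc hvd)
        (by
          intro v hvx hvd
          by_cases hvc : v = c
          · subst hvc; right; omega
          · rw [lo v hvc hvx]; exact hot v hvc hvd)
      refine ⟨F', hF1, hF0, hF2, hF5 c (by omega), hF4, ?_⟩
      intro v hv
      have hvc : v ≠ c := by rintro rfl; omega
      have hvx : v ≠ x := by rintro rfl; omega
      exact hF5 v (by rw [lo v hvc hvx]; exact hv)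

/-- inserting `d` into an edge `b y` -/
theorem insert4 (G F1 : SimpleGraph V) (A : Set V) (hG1 : F1 ≤ G) (hnt : NT F1)
    (hF1 : ∀ v, dg F1 v = 0 ∨ dg F1 v = 2) (hA : ∀ v ∈ A, dg F1 v = 2) {b d y : V}
    (h1d : dg F1 d = 0) (hby : F1.Adj b y) (hbd : G.Adj b d) (hdy : G.Adj d y) :
    Cov4 G (insert d (insert b A)) := by
  have nbd : b ≠ d := G.ne_of_adj hbd
  have ndy : d ≠ y := G.ne_of_adj hdy
  have nby : b ≠ y := F1.ne_of_adj hby
  have b2 : dg F1 b = 2 := by
    have := adj_pos hby
    rcases hF1 b with h3 | h3 <;> omega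
  have y2 : dg F1 y = 2 := by
    have := adj_pos hby.symm
    rcases hF1 y with h3 | h3 <;> omega
  have r1 := dg_rem_left F1 hby
  have r2 := dg_rem_right F1 hby
  have r3 : ∀ v, v ≠ b → v ≠ y → dg (remE F1 b y) v = dg F1 v :=
    fun v h3 h4 => dg_rem_other F1 h3 h4
  have rd := r3 d nbd.symm ndy
  have n1 : ¬ (remE F1 b y).Adj b d := fun h => by
    have := adj_pos h.symm
    omega
  have s1 := dg_add_left (remE F1 b y) nbd n1
  have s2 := dg_add_right (remE F1 b y) nbd n1
  have s3 : ∀ v, v ≠ b → v ≠ d → dg (addE (remE F1 b y) b d nbd) v = dg (remE F1 b y) v :=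
    fun v h3 h4 => dg_add_other _ nbd h3 h4
  have n2 : ¬ (addE (remE F1 b y) b d nbd).Adj d y := by
    rintro (h3 | h3 | h3)
    · have := adj_pos h3
      omega
    · exact nbd h3.1.symm
    · exact nby h3.2.symm
  have t1 := dg_add_left (addE (remE F1 b y) b d nbd) ndy n2
  have t2 := dg_add_right (addE (remE F1 b y) b d nbd) ndy n2
  have t3 : ∀ v, v ≠ d → v ≠ y → dg (addE (addE (remE F1 b y) b d nbd) d y ndy) v =
      dg (addE (remE F1 b y) b d nbd) v := fun v h3 h4 => dg_add_other _ ndy h3 h4
  have sy := s3 y nby.symm ndy.symm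
  have tb := t3 b nbd nby
  have hall : ∀ v, v ≠ b → v ≠ d → v ≠ y →
      dg (addE (addE (remE F1 b y) b d nbd) d y ndy) v = dg F1 v := by
    intro v h3 h4 h5
    rw [t3 v h4 h5, s3 v h3 h4, r3 v h3 h5]
  have hdeg : ∀ v, dg (addE (addE (remE F1 b y) b d nbd) d y ndy) v = 0 ∨
      dg (addE (addE (remE F1 b y) b d nbd) d y ndy) v = 2 := by
    intro v
    by_cases h3 : v = b
    · subst h3; right; omega
    · by_cases h4 : v = d
      · subst h4; right; omega
      · by_cases h5 : v = y
        · subst h5; right; omega
        · rw [hall v h3 h4 h5]; exact hF1 v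
  refine ⟨addE (addE (remE F1 b y) b d nbd) d y ndy, ?_, hdeg, ?_, ?_⟩
  · intro u v huv
    rcases huv with (h3 | h3 | h3) | h3 | h3
    · exact hG1 h3.1
    · rw [h3.1, h3.2]; exact hbd
    · rw [h3.1, h3.2]; exact hbd.symm
    · rw [h3.1, h3.2]; exact hdy
    · rw [h3.1, h3.2]; exact hdy.symm
  · intro v hv
    change dg (addE (addE (remE F1 b y) b d nbd) d y ndy) v = 2
    by_cases h3 : v = b
    · subst h3; omega
    · by_cases h4 : v = d
      · subst h4; omega
      · by_cases h5 : v = y
        · subst h5; omega
        · rw [hall v h3 h4 h5]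
          rcases hv with hv | hv | hv
          · exact absurd hv h4
          · exact absurd hv h3
          · exact hA v hv
  · have k1 : NT (addE (remE F1 b y) b d nbd) :=
      nt_add (nt_rem hnt b y) nbd (fun z _ h4 => by have := adj_pos h4; omega)
    refine nt_add k1 ndy ?_
    intro z hz1 hz2
    have hzb : z = b := by
      rcases hz1 with h3 | h3 | h3
      · have := adj_pos h3
        omega
      · exact absurd h3.1.symm nbd
      · exact h3.2
    subst hzb
    rcases hz2 with h3 | h3 | h3
    · exact h3.2.2 ⟨rfl, rfl⟩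
    · exact nby h3.1.symm
    · exact ndy h3.1.symm

/-- **Exchange lemma without triangles.** -/
theorem exchange4 (G : SimpleGraph V) (A : Set V) (b d : V)
    (h1 : Cov4 G (insert b A)) (h2 : Cov4 G (insert d A)) (p : G.Walk b d) (hp : p.IsPath)
    (hin : ∀ r ∈ p.support, r ≠ b → r ≠ d → ¬ Cov4 G (insert r A)) :
    Cov4 G (insert d (insert b A)) := by
  obtain ⟨F1, hG1, hF1, hA1, hT1⟩ := h1
  obtain ⟨F2, hG2, hF2, hA2, hT2⟩ := h2
  by_cases hbd : b = d
  · subst hbd
    exact ⟨F1, hG1, hF1, by simpa using hA1, hT1⟩
  by_cases hd1 : dg F1 d = 0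
  swap
  · refine ⟨F1, hG1, hF1, ?_, hT1⟩
    intro v hv
    rcases hv with rfl | hv
    · rcases hF1 v with h3 | h3
      · exact absurd h3 hd1
      · exact h3
    · exact hA1 v hv
  by_cases hb2 : dg F2 b = 0
  swap
  · refine ⟨F2, hG2, hF2, ?_, hT2⟩
    intro v hv
    rcases hv with rfl | rfl | hv
    · exact hA2 v (Set.mem_insert _ _)
    · rcases hF2 v with h3 | h3
      · exact absurd h3 hb2
      · exact h3
    · exact hA2 v (Set.mem_insert_of_mem _ hv)
  have hr1 : ∀ r ∈ p.support, r ≠ b → r ≠ d → dg F1 r = 0 := by
    intro r hr hrb hrd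
    rcases hF1 r with h3 | h3
    · exact h3
    · exfalso
      apply hin r hr hrb hrd
      refine ⟨F1, hG1, hF1, ?_, hT1⟩
      intro v hv
      rcases hv with rfl | hv
      · exact h3
      · exact hA1 v (Set.mem_insert_of_mem _ hv)
  have hr2 : ∀ r ∈ p.support, r ≠ b → r ≠ d → dg F2 r = 0 := by
    intro r hr hrb hrd
    rcases hF2 r with h3 | h3
    · exact h3
    · exfalso
      apply hin r hr hrb hrd
      refine ⟨F2, hG2, hF2, ?_, hT2⟩
      intro v hv
      rcases hv with rfl | hv
      · exact h3
      · exact hA2 v (Set.mem_insert_of_mem _ hv)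
  have hd2 : dg F2 d = 2 := hA2 d (Set.mem_insert _ _)
  have hb1 : dg F1 b = 2 := hA1 b (Set.mem_insert _ _)
  have hA1' : ∀ v ∈ A, dg F1 v = 2 := fun v hv => hA1 v (Set.mem_insert_of_mem _ hv)
  have hA2' : ∀ v ∈ A, dg F2 v = 2 := fun v hv => hA2 v (Set.mem_insert_of_mem _ hv)
  have hAb : b ∉ A := fun h => by have := hA2' b h; omega
  have hAd : d ∉ A := fun h => by have := hA1' d h; omega
  -- the first step
  obtain ⟨a, ha2, ha1⟩ := ex_of_lt (F := F1) (F2 := F2) (a := d) (by omega)
  have hda : d ≠ a := F2.ne_of_adj ha2
  have hab : a ≠ b := by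
    rintro rfl
    have := adj_pos ha2.symm
    omega
  have h2a : dg F2 a = 2 := by
    have := adj_pos ha2.symm
    rcases hF2 a with h3 | h3
    · unfold dg at this; omega
    · exact h3
  have hres : ∃ F' : SimpleGraph V, Res F1 F2 A b d F' := by
    rcases hF1 a with ha0 | ha0
    · change dg F1 a = 0 at ha0
      have ld := dg_add_left F1 hda ha1
      have la := dg_add_right F1 hda ha1
      have lo : ∀ v, v ≠ d → v ≠ a → dg (addE F1 d a hda) v = dg F1 v :=
        fun v h3 h4 => dg_add_other F1 hda h3 h4
      refine walk4 F1 F2 A b d hbd hd1 hb2 hF2 hA2' hA1' hT2 _ (addE F1 d a hda) a le_rfl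
        ⟨?_, ?_, hab, hda.symm, by omega, by rw [lo b hbd hab.symm]; exact hb1, by omega,
          ?_, ?_⟩
      · intro u v huv
        rcases huv with h3 | h3 | h3
        · exact Or.inl h3
        · rw [h3.1, h3.2]; exact Or.inr ha2
        · rw [h3.1, h3.2]; exact Or.inr ha2.symm
      · refine nt_add hT1 hda ?_
        intro z h3 _
        have := adj_pos h3
        omega
      · intro v hva hvd
        rw [lo v hvd hva]; exact hF1 v
      · intro v hv hva hvd
        rw [lo v hvd hva]; exact hA1' v hv
    · change dg F1 a = 2 at ha0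
      obtain ⟨z, hz1, hz2⟩ := ex_nbr_ne ha0 h2a ha2.symm (fun h => ha1 h.symm)
      have haz : a ≠ z := F1.ne_of_adj hz1
      have hzd : z ≠ d := by
        rintro rfl
        have := adj_pos hz1.symm
        omega
      have hz0 : dg F1 z = 2 := by
        have := adj_pos hz1.symm
        rcases hF1 z with h3 | h3
        · change dg F1 z = 0 at h3; omega
        · exact h3
      have ma := dg_rem_left F1 hz1
      have mz := dg_rem_right F1 hz1
      have mo : ∀ v, v ≠ a → v ≠ z → dg (remE F1 a z) v = dg F1 v :=
        fun v h3 h4 => dg_rem_other F1 h3 h4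
      have hmF : ¬ (remE F1 a z).Adj d a := fun h => ha1 h.1
      have ld := dg_add_left (remE F1 a z) hda hmF
      have la := dg_add_right (remE F1 a z) hda hmF
      have lo : ∀ v, v ≠ d → v ≠ a → dg (addE (remE F1 a z) d a hda) v =
          dg (remE F1 a z) v := fun v h3 h4 => dg_add_other _ hda h3 h4
      have md := mo d hda hzd.symm
      have hle : ∀ u v, (addE (remE F1 a z) d a hda).Adj u v →
          F1.Adj u v ∨ F2.Adj u v := by
        intro u v huv
        rcases huv with h3 | h3 | h3
        · exact Or.inl h3.1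
        · rw [h3.1, h3.2]; exact Or.inr ha2
        · rw [h3.1, h3.2]; exact Or.inr ha2.symm
      have hnt : NT (addE (remE F1 a z) d a hda) := by
        refine nt_add (nt_rem hT1 a z) hda ?_
        intro t ht1 _
        have := adj_pos ht1.1
        omega
      have hzz : dg (addE (remE F1 a z) d a hda) z = 1 := by
        rw [lo z hzd haz.symm]; omega
      by_cases hzb : z = b
      · subst hzb
        refine ⟨_, hle, hnt, Or.inr ⟨hzz, by omega, ?_, ?_⟩⟩
        · intro v h3 h4
          by_cases hva : v = a
          · subst hva; right; omega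
          · rw [lo v h4 hva, mo v hva h3]; exact hF1 v
        · intro v hv
          have hvz : v ≠ z := fun h => hAb (h ▸ hv)
          have hvd : v ≠ d := fun h => hAd (h ▸ hv)
          by_cases hva : v = a
          · subst hva; omega
          · rw [lo v hvd hva, mo v hva hvz]; exact hA1' v hv
      · refine walk4 F1 F2 A b d hbd hd1 hb2 hF2 hA2' hA1' hT2 _ _ z le_rfl
          ⟨hle, hnt, hzb, hzd, by omega, ?_, hzz, ?_, ?_⟩
        · rw [lo b hbd hab.symm, mo b hab.symm (Ne.symm hzb)]; exact hb1
        · intro v h3 h4
          by_cases hva : v = a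
          · subst hva; right; omega
          · rw [lo v h4 hva, mo v hva h3]; exact hF1 v
        · intro v hv h3 h4
          by_cases hva : v = a
          · subst hva; omega
          · rw [lo v h4 hva, mo v hva h3]; exact hA1' v hv
  obtain ⟨F', hle, hnt, hF'⟩ := hres
  have hF'G : F' ≤ G := by
    intro u v huv
    rcases hle u v huv with h3 | h3
    · exact hG1 h3
    · exact hG2 h3
  rcases hF' with ⟨k1, k2, k3, k4⟩ | ⟨k1, k2, k3, k4⟩
  · refine ⟨F', hF'G, k1, ?_, hnt⟩
    intro v hv
    rcases hv with rfl | rfl | hv
    · exact k4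
    · exact k3
    · exact k2 v hv
  · have hz : ∀ v ∈ p.support, v ≠ b → v ≠ d → dg F' v = 0 := by
      intro v hv hvb hvd
      by_contra hc
      have : 0 < dg F' v := Nat.pos_of_ne_zero hc
      unfold dg at this
      rw [Set.ncard_pos (Set.toFinite _)] at this
      obtain ⟨u, hu⟩ := this
      rcases hle v u hu with h3 | h3
      · have := adj_pos h3
        have := hr1 v hv hvb hvd
        omega
      · have := adj_pos h3
        have := hr2 v hv hvb hvd
        omega
    have hnbd : ¬ F'.Adj b d := by
      intro h3
      rcases hle b d h3 with h4 | h4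
      · have := adj_pos h4.symm
        omega
      · have := adj_pos h4
        omega
    by_cases hy : G.Adj b d ∧ ∃ y, F'.Adj b y ∧ F'.Adj d y
    · obtain ⟨hGbd, y, hy1, hy2⟩ := hy
      have hby : F1.Adj b y := by
        rcases hle b y hy1 with h3 | h3
        · exact h3
        · have := adj_pos h3
          omega
      exact insert4 G F1 A hG1 hT1 hF1 hA1' hd1 hby hGbd (hF'G hy2)
    · obtain ⟨F'', m1, m0, m2, m3, m4, m5⟩ := path_close4 G p hp hbd F' hF'G hnt k1 k2 hnbd
        (fun h3 z h4 h5 => hy ⟨h3, z, h4, h5⟩) hz k3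
      refine ⟨F'', m1, m2, ?_, m0⟩
      intro v hv
      rcases hv with rfl | rfl | hv
      · exact m4
      · exact m3
      · exact m5 v (k4 v hv)

/-- walk form -/
theorem exchange4_walk (G : SimpleGraph V) (A : Set V) (b d : V)
    (h1 : Cov4 G (insert b A)) (h2 : Cov4 G (insert d A)) (p : G.Walk b d)
    (hin : ∀ r ∈ p.support, r ≠ b → r ≠ d → ¬ Cov4 G (insert r A)) :
    Cov4 G (insert d (insert b A)) := by
  classical
  exact exchange4 G A b d h1 h2 p.bypass p.bypass_isPath
    (fun r hr => hin r (p.support_bypass_subset_support hr))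

end

end H58E
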