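import Pool.Agent.Lib.H58E.Exch4

/-! Exchange lemma for coverings by disjoint cycles of length at least five (no triangle, no
4-cycle). Paper proof: helper96 (walk with rotation, insertion, replacement, restart). -/

namespace H58E

open SimpleGraph

set_option linter.unusedSectionVars false

variable {V : Type*}

/-- no triangle and no 4-cycle -/
def NS (F : SimpleGraph V) : Prop :=
  (∀ u v w, F.Adj u v → F.Adj v w → F.Adj w u → False) ∧
    ∀ u v w x, u ≠ w → v ≠ x → F.Adj u v → F.Adj v w → F.Adj w x → F.Adj x u → False

/-- `A` is covered by pairwise disjoint cycles of `G`, all of length at least five -/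
def Cov5 (G : SimpleGraph V) (A : Set V) : Prop :=
  ∃ F : SimpleGraph V, F ≤ G ∧
    (∀ v, (F.neighborSet v).ncard = 0 ∨ (F.neighborSet v).ncard = 2) ∧
    (∀ v ∈ A, (F.neighborSet v).ncard = 2) ∧ NS F

section
variable [Finite V]

theorem ns_mono {F F' : SimpleGraph V} (h : ∀ u v, F'.Adj u v → F.Adj u v) (hF : NS F) : NS F' :=
  ⟨fun u v w h1 h2 h3 => hF.1 u v w (h _ _ h1) (h _ _ h2) (h _ _ h3),
    fun u v w x k1 k2 h1 h2 h3 h4 => hF.2 u v w x k1 k2 (h _ _ h1) (h _ _ h2) (h _ _ h3)
      (h _ _ h4)⟩

theorem ns_rem {F : SimpleGraph V} (hF : NS F) (a x : V) : NS (remE F a x) :=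
  ns_mono (fun _ _ h => h.1) hF

theorem cyc4_aux {F : SimpleGraph V} {a x : V} (h : a ≠ x)
    (h3 : ∀ z z', F.Adj a z → F.Adj z z' → F.Adj z' x → False) (u v w y : V)
    (k1 : u ≠ w) (k2 : v ≠ y) (hnew : (u = a ∧ v = x) ∨ (u = x ∧ v = a))
    (e2 : (addE F a x h).Adj v w) (e3 : (addE F a x h).Adj w y) (e4 : (addE F a x h).Adj y u) :
    False := by
  have nvw : v ≠ w := (addE F a x h).ne_of_adj e2
  have nyu : y ≠ u := (addE F a x h).ne_of_adj e4
  have f2 : F.Adj v w := by
    rcases e2 with e | e | e
    · exact e
    · rcases hnew with hn | hn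
      · exact absurd (e.1.symm.trans hn.2) h
      · exact absurd (hn.1.trans e.2.symm) k1
    · rcases hnew with hn | hn
      · exact absurd (hn.1.trans e.2.symm) k1
      · exact absurd (hn.2.symm.trans e.1) h
  have f3 : F.Adj w y := by
    rcases e3 with e | e | e
    · exact e
    · rcases hnew with hn | hn
      · exact absurd (hn.1.trans e.1.symm) k1
      · exact absurd (hn.2.trans e.1.symm) nvw
    · rcases hnew with hn | hn
      · exact absurd (hn.2.trans e.1.symm) nvw
      · exact absurd (hn.1.trans e.1.symm) k1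
  have f4 : F.Adj y u := by
    rcases e4 with e | e | e
    · exact e
    · rcases hnew with hn | hn
      · exact absurd (hn.1.symm.trans e.2) h
      · exact absurd (hn.2.trans e.1.symm) k2
    · rcases hnew with hn | hn
      · exact absurd (hn.2.trans e.1.symm) k2
      · exact absurd (e.2.symm.trans hn.1) h
  rcases hnew with ⟨rfl, rfl⟩ | ⟨rfl, rfl⟩
  · exact h3 y w f4.symm f3.symm f2.symm
  · exact h3 w y f2 f3 f4

theorem ns_add {F : SimpleGraph V} (hF : NS F) {a x : V} (h : a ≠ x)
    (h2 : ∀ z, F.Adj a z → F.Adj z x → False)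
    (h3 : ∀ z z', F.Adj a z → F.Adj z z' → F.Adj z' x → False) : NS (addE F a x h) := by
  refine ⟨nt_add hF.1 h (fun z k1 k2 => h2 z k1 k2.symm), ?_⟩
  intro u v w y k1 k2 e1 e2 e3 e4
  rcases e1 with f1 | hn
  swap
  · exact cyc4_aux h h3 u v w y k1 k2 hn e2 e3 e4
  rcases e2 with f2 | hn
  swap
  · exact cyc4_aux h h3 v w y u k2 k1.symm hn e3 e4 (Or.inl f1)
  rcases e3 with f3 | hn
  swap
  · exact cyc4_aux h h3 w y u v k1.symm k2.symm hn e4 (Or.inl f1) (Or.inl f2)
  rcases e4 with f4 | hn
  swap
  · exact cyc4_aux h h3 y u v w k2.symm k1 hn (Or.inl f1) (Or.inl f2) (Or.inl f3)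
  exact hF.2 u v w y k1 k2 f1 f2 f3 f4

theorem two_nbrs {F : SimpleGraph V} {x p q : V} (h : dg F x = 2) (hp : F.Adj x p)
    (hq : F.Adj x q) (hpq : p ≠ q) : ∀ z, F.Adj x z → z = p ∨ z = q := by
  intro z hz
  obtain ⟨a, b, -, hs⟩ := Set.ncard_eq_two.mp h
  have h1 : p ∈ ({a, b} : Set V) := hs ▸ hp
  have h2 : q ∈ ({a, b} : Set V) := hs ▸ hq
  have h3 : z ∈ ({a, b} : Set V) := hs ▸ hz
  rw [Set.mem_insert_iff, Set.mem_singleton_iff] at h1 h2 h3
  rcases h1 with h1 | h1 <;> rcases h2 with h2 | h2 <;> rcases h3 with h3 | h3 <;>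
    subst h1 <;> subst h2 <;> subst h3 <;> simp_all

theorem one_nbr {F : SimpleGraph V} {x p : V} (h : dg F x = 1) (hp : F.Adj x p) :
    ∀ z, F.Adj x z → z = p := by
  intro z hz
  obtain ⟨a, hs⟩ := Set.ncard_eq_one.mp h
  have h1 : p ∈ ({a} : Set V) := hs ▸ hp
  have h3 : z ∈ ({a} : Set V) := hs ▸ hz
  rw [Set.mem_singleton_iff] at h1 h3
  rw [h1, h3]

theorem ex_other {F : SimpleGraph V} {x : V} (h : dg F x = 2) (p : V) :
    ∃ q, F.Adj x q ∧ q ≠ p := by
  obtain ⟨a, b, hab, hs⟩ := Set.ncard_eq_two.mp h
  have h1 : a ∈ F.neighborSet x := by rw [hs]; simp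
  have h2 : b ∈ F.neighborSet x := by rw [hs]; simp
  by_cases h3 : a = p
  · exact ⟨b, h2, fun h4 => hab (h3.trans h4.symm)⟩
  · exact ⟨a, h1, h3⟩

theorem ms_comm (F F2 : SimpleGraph V) : ms F F2 = ms F2 F := by
  unfold ms
  congr 1
  ext p
  simp only [Set.mem_ofPred_eq]
  tauto

theorem ms_rem_le (F F2 : SimpleGraph V) (a x : V) : ms (remE F a x) F2 ≤ ms F F2 + 2 := by
  unfold ms
  have hs : ({p : V × V | ¬ ((remE F a x).Adj p.1 p.2 ↔ F2.Adj p.1 p.2)}) ⊆
      insert (a, x) (insert (x, a) ({p : V × V | ¬ (F.Adj p.1 p.2 ↔ F2.Adj p.1 p.2)})) := by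
    rintro ⟨u, v⟩ huv
    simp only [Set.mem_ofPred_eq, remE] at huv
    simp only [Set.mem_insert_iff, Set.mem_ofPred_eq, Prod.mk.injEq]
    tauto
  refine (Set.ncard_le_ncard hs (Set.toFinite _)).trans ?_
  have h1 := Set.ncard_insert_le (a, x) (insert (x, a)
    ({p : V × V | ¬ (F.Adj p.1 p.2 ↔ F2.Adj p.1 p.2)}))
  have h2 := Set.ncard_insert_le (x, a) ({p : V × V | ¬ (F.Adj p.1 p.2 ↔ F2.Adj p.1 p.2)})
  omega

theorem ms_add_le (F F2 : SimpleGraph V) {a x : V} (h : a ≠ x) :
    ms (addE F a x h) F2 ≤ ms F F2 + 2 := by
  unfold ms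
  have hs : ({p : V × V | ¬ ((addE F a x h).Adj p.1 p.2 ↔ F2.Adj p.1 p.2)}) ⊆
      insert (a, x) (insert (x, a) ({p : V × V | ¬ (F.Adj p.1 p.2 ↔ F2.Adj p.1 p.2)})) := by
    rintro ⟨u, v⟩ huv
    simp only [Set.mem_ofPred_eq, addE] at huv
    simp only [Set.mem_insert_iff, Set.mem_ofPred_eq, Prod.mk.injEq]
    tauto
  refine (Set.ncard_le_ncard hs (Set.toFinite _)).trans ?_
  have h1 := Set.ncard_insert_le (a, x) (insert (x, a)
    ({p : V × V | ¬ (F.Adj p.1 p.2 ↔ F2.Adj p.1 p.2)}))
  have h2 := Set.ncard_insert_le (x, a) ({p : V × V | ¬ (F.Adj p.1 p.2 ↔ F2.Adj p.1 p.2)})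
  omega

theorem ms_add_eq (F F2 : SimpleGraph V) {a x : V} (h : a ≠ x) (h1 : ¬ F.Adj a x)
    (h2 : F2.Adj a x) : ms F F2 = ms (addE F a x h) F2 + 2 := by
  unfold ms
  have hs : ({p : V × V | ¬ (F.Adj p.1 p.2 ↔ F2.Adj p.1 p.2)}) =
      insert (a, x) (insert (x, a)
        ({p : V × V | ¬ ((addE F a x h).Adj p.1 p.2 ↔ F2.Adj p.1 p.2)})) := by
    ext ⟨u, v⟩
    simp only [Set.mem_insert_iff, Set.mem_ofPred_eq, Prod.mk.injEq, addE]
    constructor
    · tauto
    · rintro (⟨rfl, rfl⟩ | ⟨rfl, rfl⟩ | h3)
      · tauto
      · have := h2.symm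
        have h4 : ¬ F.Adj u v := fun h5 => h1 h5.symm
        tauto
      · by_cases h4 : u = a ∧ v = x
        · rw [h4.1, h4.2]; tauto
        · by_cases h5 : u = x ∧ v = a
          · rw [h5.1, h5.2]
            have := h2.symm
            have h6 : ¬ F.Adj x a := fun h5 => h1 h5.symm
            tauto
          · tauto
  rw [hs, Set.ncard_insert_of_notMem _ (Set.toFinite _),
    Set.ncard_insert_of_notMem _ (Set.toFinite _)]
  · simp only [Set.mem_ofPred_eq, addE, not_not]
    exact ⟨fun _ => h2.symm, fun _ => Or.inr (Or.inr ⟨trivial, trivial⟩)⟩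
  · simp only [Set.mem_insert_iff, Set.mem_ofPred_eq, Prod.mk.injEq, addE, not_or, not_not]
    refine ⟨fun h3 => h h3.1, fun _ => h2, fun _ => Or.inr (Or.inl ⟨trivial, trivial⟩)⟩

theorem ms_rem_eq (F F2 : SimpleGraph V) {a x : V} (h1 : F.Adj a x)
    (h2 : ¬ F2.Adj a x) : ms F F2 = ms (remE F a x) F2 + 2 := by
  have h : a ≠ x := F.ne_of_adj h1
  unfold ms
  have hs : ({p : V × V | ¬ (F.Adj p.1 p.2 ↔ F2.Adj p.1 p.2)}) =
      insert (a, x) (insert (x, a)
        ({p : V × V | ¬ ((remE F a x).Adj p.1 p.2 ↔ F2.Adj p.1 p.2)})) := by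
    ext ⟨u, v⟩
    simp only [Set.mem_insert_iff, Set.mem_ofPred_eq, Prod.mk.injEq, remE]
    constructor
    · tauto
    · rintro (⟨rfl, rfl⟩ | ⟨rfl, rfl⟩ | h3)
      · tauto
      · have := h1.symm
        have h4 : ¬ F2.Adj u v := fun h5 => h2 h5.symm
        tauto
      · by_cases h4 : u = a ∧ v = x
        · rw [h4.1, h4.2]; tauto
        · by_cases h5 : u = x ∧ v = a
          · rw [h5.1, h5.2]
            have := h1.symm
            have h6 : ¬ F2.Adj x a := fun h5 => h2 h5.symm
            tauto
          · tauto
  have n1 : ¬ F2.Adj x a := fun h5 => h2 h5.symm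
  rw [hs, Set.ncard_insert_of_notMem _ (Set.toFinite _),
    Set.ncard_insert_of_notMem _ (Set.toFinite _)]
  · simp only [Set.mem_ofPred_eq, remE, not_not]
    exact ⟨fun h3 => absurd ⟨trivial, trivial⟩ h3.2.2, fun h3 => absurd h3 n1⟩
  · simp only [Set.mem_insert_iff, Set.mem_ofPred_eq, Prod.mk.injEq, remE, not_or, not_not]
    refine ⟨fun h3 => h h3.1, fun h3 => absurd ⟨trivial, trivial⟩ h3.2.1,
      fun h3 => absurd h3 h2⟩

/-- the rotation at `d` -/
def Q5 (F1 F2 : SimpleGraph V) (d e0 : V) : Prop :=
  ∃ a w, a ≠ e0 ∧ F2.Adj d a ∧ F2.Adj a w ∧ F1.Adj w e0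

/-- the state of the walk -/
structure S5 (F1 F2 : SimpleGraph V) (A : Set V) (b d e0 a : V) (F : SimpleGraph V) :
    Prop where
  le : ∀ u v, F.Adj u v → F1.Adj u v ∨ F2.Adj u v
  ns : NS F
  ab : a ≠ b
  ad : a ≠ d
  dd : dg F d = 1
  db : dg F b = 2
  da : dg F a = 1
  dv : ∀ v, v ≠ a → v ≠ d → dg F v = 0 ∨ dg F v = 2
  dA : ∀ v ∈ A, v ≠ a → v ≠ d → dg F v = 2
  inv : F.Adj d e0 ∨ Q5 F1 F2 d e0

/-- result of the walk -/
def Res5 (F1 F2 : SimpleGraph V) (A : Set V) (b d e0 : V) (F' : SimpleGraph V) : Prop :=
  (∀ u v, F'.Adj u v → F1.Adj u v ∨ F2.Adj u v) ∧ NS F' ∧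
    (((∀ v, dg F' v = 0 ∨ dg F' v = 2) ∧ (∀ v ∈ A, dg F' v = 2) ∧ dg F' b = 2 ∧
        dg F' d = 2) ∨
      (dg F' b = 1 ∧ dg F' d = 1 ∧ (∀ v, v ≠ b → v ≠ d → dg F' v = 0 ∨ dg F' v = 2) ∧
        (∀ v ∈ A, dg F' v = 2) ∧ (F'.Adj d e0 ∨ Q5 F1 F2 d e0)))

/-- the context of the walk -/
structure Ctx (F1 F2 : SimpleGraph V) (A : Set V) (b d : V) : Prop where
  bd : b ≠ d
  d1 : dg F1 d = 0
  b2 : dg F2 b = 0
  g2 : ∀ v, dg F2 v = 0 ∨ dg F2 v = 2
  A2 : ∀ v ∈ A, dg F2 v = 2
  A1 : ∀ v ∈ A, dg F1 v = 2
  n2 : NS F2

theorem S5.hd2 {F1 F2 : SimpleGraph V} {A : Set V} {b d e0 a : V} {F : SimpleGraph V}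
    (hC : Ctx F1 F2 A b d) (hS : S5 F1 F2 A b d e0 a F) : ∀ z, F.Adj d z → F2.Adj d z := by
  intro z hz
  have h1d := hC.d1
  rcases hS.le d z hz with h3 | h3
  · have := adj_pos h3
    omega
  · exact h3

/-- one step: add a good edge -/
theorem addstep {F1 F2 : SimpleGraph V} {A : Set V} {b d e0 : V} (hC : Ctx F1 F2 A b d) {n : ℕ}
    (ih : ∀ (F : SimpleGraph V) (a : V), ms F F2 ≤ n → S5 F1 F2 A b d e0 a F →
      ∃ F' : SimpleGraph V, Res5 F1 F2 A b d e0 F')
    {F : SimpleGraph V} {a : V} (hn : ms F F2 ≤ n + 1) (hS : S5 F1 F2 A b d e0 a F) {x : V}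
    (hx2 : F2.Adj a x) (hxF : ¬ F.Adj a x) (w2 : ∀ z, F.Adj a z → F.Adj z x → False)
    (w3 : ∀ z z', F.Adj a z → F.Adj z z' → F.Adj z' x → False) :
    ∃ F' : SimpleGraph V, Res5 F1 F2 A b d e0 F' := by
  have hbd := hC.bd
  have h2b := hC.b2
  have hda := hS.da
  have hdd0 := hS.dd
  have hd2 := hS.hd2 hC
  have hAb : b ∉ A := fun h => by have := hC.A2 b h; omega
  have hAd : d ∉ A := fun h => by have := hC.A1 d h; have := hC.d1; omega
  have hax : a ≠ x := F2.ne_of_adj hx2
  have hxb : x ≠ b := by
    rintro rfl
    have := adj_pos hx2.symm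
    omega
  have h2x : dg F2 x = 2 := by
    have := adj_pos hx2.symm
    rcases hC.g2 x with h3 | h3 <;> omega
  by_cases hxd : x = d
  · subst hxd
    have la := dg_add_left F hax hxF
    have lx := dg_add_right F hax hxF
    have lo : ∀ v, v ≠ a → v ≠ x → dg (addE F a x hax) v = dg F v :=
      fun v h3 h4 => dg_add_other F hax h3 h4
    refine ⟨addE F a x hax, ?_, ns_add hS.ns hax w2 w3, Or.inl ⟨?_, ?_, ?_, ?_⟩⟩
    · intro u v huv
      rcases huv with h3 | h3 | h3
      · exact hS.le u v h3
      · rw [h3.1, h3.2]; exact Or.inr hx2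
      · rw [h3.1, h3.2]; exact Or.inr hx2.symm
    · intro v
      by_cases hva : v = a
      · subst hva; right; omega
      · by_cases hvx : v = x
        · subst hvx; right; omega
        · rw [lo v hva hvx]; exact hS.dv v hva hvx
    · intro v hv
      by_cases hva : v = a
      · subst hva; omega
      · have hvx : v ≠ x := fun h => hAd (h ▸ hv)
        rw [lo v hva hvx]; exact hS.dA v hv hva hvx
    · rw [lo b hS.ab.symm hbd]; exact hS.db
    · omega
  · rcases hS.dv x hax.symm hxd with hx0 | hx0
    · have la := dg_add_left F hax hxF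
      have lx := dg_add_right F hax hxF
      have lo : ∀ v, v ≠ a → v ≠ x → dg (addE F a x hax) v = dg F v :=
        fun v h3 h4 => dg_add_other F hax h3 h4
      refine ih (addE F a x hax) x ?_ ⟨?_, ns_add hS.ns hax w2 w3, hxb, hxd, ?_, ?_, ?_, ?_,
        ?_, ?_⟩
      · have := ms_add_lt F F2 hax hxF hx2
        omega
      · intro u v huv
        rcases huv with h3 | h3 | h3
        · exact hS.le u v h3
        · rw [h3.1, h3.2]; exact Or.inr hx2
        · rw [h3.1, h3.2]; exact Or.inr hx2.symm
      · rw [lo d hS.ad.symm (Ne.symm hxd)]; exact hS.dd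
      · rw [lo b hS.ab.symm (Ne.symm hxb)]; exact hS.db
      · omega
      · intro v hvx hvd
        by_cases hva : v = a
        · subst hva; right; omega
        · rw [lo v hva hvx]; exact hS.dv v hva hvd
      · intro v hv hvx hvd
        by_cases hva : v = a
        · subst hva; omega
        · rw [lo v hva hvx]; exact hS.dA v hv hva hvd
      · rcases hS.inv with h3 | h3
        · exact Or.inl (Or.inl h3)
        · exact Or.inr h3
    · obtain ⟨z, hzF, hz2⟩ := ex_nbr_ne hx0 h2x hx2.symm (fun h5 => hxF h5.symm)
      have hxz : x ≠ z := F.ne_of_adj hzF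
      have hza : z ≠ a := by
        rintro rfl
        exact hxF hzF.symm
      have hzd : z ≠ d := by
        rintro rfl
        exact hz2 (hd2 x hzF.symm).symm
      have hz22 : dg F z = 2 := by
        have := adj_pos hzF.symm
        rcases hS.dv z hza hzd with h3 | h3 <;> omega
      have mx := dg_rem_left F hzF
      have mz := dg_rem_right F hzF
      have mo : ∀ v, v ≠ x → v ≠ z → dg (remE F x z) v = dg F v :=
        fun v h3 h4 => dg_rem_other F h3 h4
      have hmF : ¬ (remE F x z).Adj a x := fun h => hxF h.1
      have la := dg_add_left (remE F x z) hax hmF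
      have lx := dg_add_right (remE F x z) hax hmF
      have lo : ∀ v, v ≠ a → v ≠ x → dg (addE (remE F x z) a x hax) v =
          dg (remE F x z) v := fun v h3 h4 => dg_add_other _ hax h3 h4
      have ma := mo a hax hza.symm
      have hle : ∀ u v, (addE (remE F x z) a x hax).Adj u v →
          F1.Adj u v ∨ F2.Adj u v := by
        intro u v huv
        rcases huv with h3 | h3 | h3
        · exact hS.le u v h3.1
        · rw [h3.1, h3.2]; exact Or.inr hx2
        · rw [h3.1, h3.2]; exact Or.inr hx2.symm
      have hns : NS (addE (remE F x z) a x hax) :=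
        ns_add (ns_rem hS.ns x z) hax (fun t h3 h4 => w2 t h3.1 h4.1)
          (fun t t' h3 h4 h5 => w3 t t' h3.1 h4.1 h5.1)
      have hdd : dg (addE (remE F x z) a x hax) d = 1 := by
        rw [lo d hS.ad.symm (Ne.symm hxd), mo d (Ne.symm hxd) hzd.symm]; exact hS.dd
      have hzz : dg (addE (remE F x z) a x hax) z = 1 := by
        rw [lo z hza hxz.symm]; omega
      have hinv : (addE (remE F x z) a x hax).Adj d e0 ∨ Q5 F1 F2 d e0 := by
        rcases hS.inv with h3 | h3
        · exact Or.inl (Or.inl ⟨h3, fun h4 => hxd h4.1.symm, fun h4 => hzd h4.1.symm⟩)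
        · exact Or.inr h3
      by_cases hzb : z = b
      · subst hzb
        refine ⟨_, hle, hns, Or.inr ⟨hzz, hdd, ?_, ?_, hinv⟩⟩
        · intro v h3 h4
          by_cases hva : v = a
          · subst hva; right; omega
          · by_cases hvx : v = x
            · subst hvx; right; omega
            · rw [lo v hva hvx, mo v hvx h3]; exact hS.dv v hva h4
        · intro v hv
          have hvz : v ≠ z := fun h => hAb (h ▸ hv)
          have hvd : v ≠ d := fun h => hAd (h ▸ hv)
          by_cases hva : v = a
          · subst hva; omega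
          · by_cases hvx : v = x
            · subst hvx; omega
            · rw [lo v hva hvx, mo v hvx hvz]; exact hS.dA v hv hva hvd
      · refine ih _ z ?_ ⟨hle, hns, hzb, hzd, hdd, ?_, hzz, ?_, ?_, hinv⟩
        · have e1 := ms_add_lt (remE F x z) F2 hax hmF hx2
          have e2 := ms_rem_lt F F2 hzF hz2
          omega
        · rw [lo b hS.ab.symm (Ne.symm hxb), mo b (Ne.symm hxb) (Ne.symm hzb)]
          exact hS.db
        · intro v h3 h4
          by_cases hva : v = a
          · subst hva; right; omega
          · by_cases hvx : v = x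
            · subst hvx; right; omega
            · rw [lo v hva hvx, mo v hvx h3]; exact hS.dv v hva h4
        · intro v hv h3 h4
          by_cases hva : v = a
          · subst hva; omega
          · by_cases hvx : v = x
            · subst hvx; omega
            · rw [lo v hva hvx, mo v hvx h3]; exact hS.dA v hv hva h4

/-- swap step: remove `p q` and add `a q`; the vertex `p` gets degree one -/
theorem swapstep {F1 F2 : SimpleGraph V} {A : Set V} {b d e0 : V} (hC : Ctx F1 F2 A b d) {n : ℕ}
    (ih : ∀ (F : SimpleGraph V) (a : V), ms F F2 ≤ n → S5 F1 F2 A b d e0 a F →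
      ∃ F' : SimpleGraph V, Res5 F1 F2 A b d e0 F')
    {F : SimpleGraph V} {a : V} (hn : ms F F2 ≤ n + 1) (hS : S5 F1 F2 A b d e0 a F) {p q : V}
    (hpq : F.Adj p q) (hpq2 : ¬ F2.Adj p q) (hp2 : dg F p = 2) (hpa : p ≠ a)
    (hq2 : F2.Adj a q) (hqF : ¬ F.Adj a q) (haq : a ≠ q)
    (hns : NS (addE (remE F p q) a q haq)) :
    ∃ F' : SimpleGraph V, Res5 F1 F2 A b d e0 F' := by
  have hbd := hC.bd
  have h2b := hC.b2
  have hda := hS.da
  have hdd0 := hS.dd
  have hd2 := hS.hd2 hC
  have hAb : b ∉ A := fun h => by have := hC.A2 b h; omega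
  have hAd : d ∉ A := fun h => by have := hC.A1 d h; have := hC.d1; omega
  have hpd : p ≠ d := by rintro rfl; omega
  have hqd : q ≠ d := by
    rintro rfl
    exact hpq2 (hd2 p hpq.symm).symm
  have hqb : q ≠ b := by
    rintro rfl
    have := adj_pos hq2.symm
    omega
  have npq : p ≠ q := F.ne_of_adj hpq
  have mp := dg_rem_left F hpq
  have mq := dg_rem_right F hpq
  have mo : ∀ v, v ≠ p → v ≠ q → dg (remE F p q) v = dg F v :=
    fun v h3 h4 => dg_rem_other F h3 h4
  have hmF : ¬ (remE F p q).Adj a q := fun h => hqF h.1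
  have la := dg_add_left (remE F p q) haq hmF
  have lq := dg_add_right (remE F p q) haq hmF
  have lo : ∀ v, v ≠ a → v ≠ q → dg (addE (remE F p q) a q haq) v = dg (remE F p q) v :=
    fun v h3 h4 => dg_add_other _ haq h3 h4
  have ma := mo a hpa.symm haq
  have hle : ∀ u v, (addE (remE F p q) a q haq).Adj u v → F1.Adj u v ∨ F2.Adj u v := by
    intro u v huv
    rcases huv with h3 | h3 | h3
    · exact hS.le u v h3.1
    · rw [h3.1, h3.2]; exact Or.inr hq2
    · rw [h3.1, h3.2]; exact Or.inr hq2.symm
  have hdd : dg (addE (remE F p q) a q haq) d = 1 := by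
    rw [lo d hS.ad.symm (Ne.symm hqd), mo d (Ne.symm hpd) (Ne.symm hqd)]; exact hS.dd
  have hpp : dg (addE (remE F p q) a q haq) p = 1 := by
    rw [lo p hpa npq]; omega
  have hinv : (addE (remE F p q) a q haq).Adj d e0 ∨ Q5 F1 F2 d e0 := by
    rcases hS.inv with h3 | h3
    · exact Or.inl (Or.inl ⟨h3, fun h4 => hpd h4.1.symm, fun h4 => hqd h4.1.symm⟩)
    · exact Or.inr h3
  have hqq : dg (addE (remE F p q) a q haq) q = dg F q := by omega
  have hall : ∀ v, v ≠ p → v ≠ a → dg (addE (remE F p q) a q haq) v = dg F v := by
    intro v h3 h4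
    by_cases h5 : v = q
    · rw [h5]; exact hqq
    · rw [lo v h4 h5, mo v h3 h5]
  have haa : dg (addE (remE F p q) a q haq) a = 2 := by omega
  by_cases hpb : p = b
  · subst hpb
    refine ⟨_, hle, hns, Or.inr ⟨hpp, hdd, ?_, ?_, hinv⟩⟩
    · intro v h3 h4
      by_cases hva : v = a
      · subst hva; right; exact haa
      · rw [hall v h3 hva]; exact hS.dv v hva h4
    · intro v hv
      have hvp : v ≠ p := fun h => hAb (h ▸ hv)
      have hvd : v ≠ d := fun h => hAd (h ▸ hv)
      by_cases hva : v = a
      · subst hva; exact haa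
      · rw [hall v hvp hva]; exact hS.dA v hv hva hvd
  · refine ih _ p ?_ ⟨hle, hns, hpb, hpd, hdd, ?_, hpp, ?_, ?_, hinv⟩
    · have e1 := ms_add_lt (remE F p q) F2 haq hmF hq2
      have e2 := ms_rem_lt F F2 hpq hpq2
      omega
    · rw [hall b (Ne.symm hpb) hS.ab.symm]; exact hS.db
    · intro v h3 h4
      by_cases hva : v = a
      · subst hva; right; exact haa
      · rw [hall v h3 hva]; exact hS.dv v hva h4
    · intro v hv h3 h4
      by_cases hva : v = a
      · subst hva; exact haa
      · rw [hall v h3 hva]; exact hS.dA v hv hva h4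

theorem walk5 {F1 F2 : SimpleGraph V} {A : Set V} {b d e0 : V} (hC : Ctx F1 F2 A b d) :
    ∀ (n : ℕ) (F : SimpleGraph V) (a : V), ms F F2 ≤ n → S5 F1 F2 A b d e0 a F →
      ∃ F' : SimpleGraph V, Res5 F1 F2 A b d e0 F' := by
  have hbd := hC.bd
  have h2b := hC.b2
  have h1d := hC.d1
  have hAb : b ∉ A := fun h => by have := hC.A2 b h; omega
  have hAd : d ∉ A := fun h => by have := hC.A1 d h; omega
  intro n
  induction n with
  | zero =>
    intro F a hn hS
    exfalso
    have hE : ∀ u v, F.Adj u v ↔ F2.Adj u v := by
      intro u v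
      by_contra hc
      have h0 : ms F F2 = 0 := Nat.le_zero.mp hn
      unfold ms at h0
      rw [Set.ncard_eq_zero (Set.toFinite _)] at h0
      have : (u, v) ∈ ({p : V × V | ¬ (F.Adj p.1 p.2 ↔ F2.Adj p.1 p.2)}) := hc
      rw [h0] at this
      exact this
    have hF : F = F2 := by
      ext u v
      exact hE u v
    have := hS.dd
    rw [hF] at this
    rcases hC.g2 d with h3 | h3 <;> omega
  | succ n ih =>
    intro F a hn hS
    have hda := hS.da
    have hdd0 := hS.dd
    obtain ⟨w, hw⟩ : ∃ w, F.Adj a w := by
      have h3 : 0 < dg F a := by omega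
      unfold dg at h3
      rw [Set.ncard_pos (Set.toFinite _)] at h3
      exact h3
    have hwu := one_nbr hda hw
    have hd2 := hS.hd2 hC
    have hwa : w ≠ a := (F.ne_of_adj hw).symm
    rcases hC.g2 a with h2a | h2a
    · have hn2 : ¬ F2.Adj a w := fun h => by have := adj_pos h; omega
      have hwd : w ≠ d := by
        rintro rfl
        have := adj_pos (hd2 a hw.symm).symm
        omega
      have la := dg_rem_left F hw
      have lx := dg_rem_right F hw
      have lo : ∀ v, v ≠ a → v ≠ w → dg (remE F a w) v = dg F v :=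
        fun v h3 h4 => dg_rem_other F h3 h4
      have hle : ∀ u v, (remE F a w).Adj u v → F1.Adj u v ∨ F2.Adj u v :=
        fun u v huv => hS.le u v huv.1
      have hA' : a ∉ A := fun h => by have := hC.A2 a h; omega
      have hdd : dg (remE F a w) d = 1 := by rw [lo d hS.ad.symm hwd.symm]; exact hS.dd
      have hinv : (remE F a w).Adj d e0 ∨ Q5 F1 F2 d e0 := by
        rcases hS.inv with h3 | h3
        · exact Or.inl ⟨h3, fun h4 => hS.ad h4.1.symm, fun h4 => hwd h4.1.symm⟩
        · exact Or.inr h3
      by_cases hwb : w = b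
      · subst hwb
        refine ⟨remE F a w, hle, ns_rem hS.ns a w, Or.inr ⟨?_, hdd, ?_, ?_, hinv⟩⟩
        · have := hS.db
          omega
        · intro v h3 h4
          by_cases hva : v = a
          · subst hva; left; omega
          · rw [lo v hva h3]; exact hS.dv v hva h4
        · intro v hv
          have hva : v ≠ a := fun h => hA' (h ▸ hv)
          have hvy : v ≠ w := fun h => hAb (h ▸ hv)
          have hvd : v ≠ d := fun h => hAd (h ▸ hv)
          rw [lo v hva hvy]; exact hS.dA v hv hva hvd
      · have hy2 : dg F w = 2 := by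
          have := adj_pos hw.symm
          rcases hS.dv w hwa hwd with h3 | h3 <;> omega
        refine ih (remE F a w) w ?_ ⟨hle, ns_rem hS.ns a w, hwb, hwd, hdd, ?_, ?_, ?_, ?_,
          hinv⟩
        · have := ms_rem_lt F F2 hw hn2
          omega
        · rw [lo b hS.ab.symm (Ne.symm hwb)]; exact hS.db
        · omega
        · intro v h3 h4
          by_cases hva : v = a
          · subst hva; left; omega
          · rw [lo v hva h3]; exact hS.dv v hva h4
        · intro v hv h3 h4
          have hva : v ≠ a := fun h => hA' (h ▸ hv)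
          rw [lo v hva h3]; exact hS.dA v hv hva h4
    · by_cases hgood : ∃ x, F2.Adj a x ∧ ¬ F.Adj a x ∧ ¬ F.Adj w x ∧
          ∀ z, F.Adj w z → F.Adj z x → False
      · obtain ⟨x, hx2, hxF, g2, g3⟩ := hgood
        refine addstep hC ih hn hS hx2 hxF ?_ ?_
        · intro z h3 h4
          rw [hwu z h3] at h4
          exact g2 h4
        · intro z z' h3 h4 h5
          rw [hwu z h3] at h4
          exact g3 z' h4 h5
      · push Not at hgood
        by_cases h2a' : ∃ y, F2.Adj a y ∧ ¬ F.Adj a y ∧ F.Adj w y
        · obtain ⟨y, hy2, hyF, hwy⟩ := h2a'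
          have hay : a ≠ y := F2.ne_of_adj hy2
          have hwd : w ≠ d := by
            rintro rfl
            have := one_nbr hdd0 hw.symm y hwy
            exact hay this.symm
          have hw2 : dg F w = 2 := by
            have := adj_pos hw.symm
            rcases hS.dv w hwa hwd with h3 | h3 <;> omega
          have hwn := two_nbrs hw2 hw.symm hwy hay
          by_cases hwy2 : F2.Adj w y
          · have haw2 : ¬ F2.Adj a w := fun h3 => hC.n2.1 a w y h3 hwy2 hy2.symm
            obtain ⟨t, ht2, hty⟩ := ex_other h2a y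
            have htw : t ≠ w := by
              rintro rfl
              exact haw2 ht2
            have htF : ¬ F.Adj a t := fun h3 => htw (hwu t h3)
            have hta : t ≠ a := (F2.ne_of_adj ht2).symm
            have hwt : ¬ F.Adj w t := by
              intro h3
              rcases hwn t h3 with h4 | h4
              · exact hta h4
              · exact hty h4
            obtain ⟨y', h4, h5, -⟩ := hgood t ht2 htF hwt
            have hy' : y' = y := by
              rcases hwn y' h4 with h6 | h6
              · subst h6; exact absurd h5 htF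
              · exact h6
            subst hy'
            have hyt2 : ¬ F2.Adj y' t := fun h6 => hC.n2.1 a y' t hy2 h6 ht2.symm
            have hyd : y' ≠ d := by
              rintro rfl
              exact htw (one_nbr hdd0 hwy.symm t h5)
            have hyy : dg F y' = 2 := by
              have := adj_pos h5
              rcases hS.dv y' hay.symm hyd with h6 | h6 <;> omega
            refine swapstep hC ih hn hS h5 hyt2 hyy hay.symm ht2 htF hta.symm ?_
            refine ns_add (ns_rem hS.ns y' t) hta.symm ?_ ?_
            · intro z h6 h7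
              rw [hwu z h6.1] at h7
              exact hwt h7.1
            · intro z z' h6 h7 h8
              rw [hwu z h6.1] at h7
              rcases hwn z' h7.1 with h9 | h9
              · subst h9; exact htF h8.1
              · subst h9; exact h8.2.1 ⟨rfl, rfl⟩
          · have hyw2 : ¬ F2.Adj w y := hwy2
            refine swapstep hC ih hn hS hwy hyw2 hw2 hwa hy2 hyF hay ?_
            refine ns_add (ns_rem hS.ns w y) hay ?_ ?_
            · intro z h6 h7
              rw [hwu z h6.1] at h7
              exact h7.2.1 ⟨rfl, rfl⟩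
            · intro z z' h6 h7 h8
              rw [hwu z h6.1] at h7
              rcases hwn z' h7.1 with h9 | h9
              · subst h9; exact hyF h8.1
              · subst h9; exact h7.2.1 ⟨rfl, rfl⟩
        · push Not at h2a'
          obtain ⟨t, ht2, htF⟩ := ex_of_lt (F := F) (F2 := F2) (a := a) (by omega)
          have hwt : ¬ F.Adj w t := h2a' t ht2 htF
          obtain ⟨y, hwy, hyt, -⟩ := hgood t ht2 htF hwt
          have hta : t ≠ a := (F2.ne_of_adj ht2).symm
          have hay : a ≠ y := by
            rintro rfl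
            exact htF hyt
          have htw : t ≠ w := by
            rintro rfl
            exact htF hw
          have nwy : w ≠ y := F.ne_of_adj hwy
          have nyt : y ≠ t := F.ne_of_adj hyt
          have hwd : w ≠ d := by
            rintro rfl
            exact hay (one_nbr hdd0 hw.symm y hwy).symm
          have hw2 : dg F w = 2 := by
            have := adj_pos hw.symm
            rcases hS.dv w hwa hwd with h3 | h3 <;> omega
          have hwn := two_nbrs hw2 hw.symm hwy hay
          have hyd : y ≠ d := by
            rintro rfl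
            exact htw (one_nbr hdd0 hwy.symm t hyt)
          have hyy : dg F y = 2 := by
            have := adj_pos hyt
            rcases hS.dv y hay.symm hyd with h6 | h6 <;> omega
          have hyn := two_nbrs hyy hwy.symm hyt htw.symm
          have hns : NS (addE (remE F y t) a t hta.symm) := by
            refine ns_add (ns_rem hS.ns y t) hta.symm ?_ ?_
            · intro z h6 h7
              rw [hwu z h6.1] at h7
              exact hwt h7.1
            · intro z z' h6 h7 h8
              rw [hwu z h6.1] at h7
              rcases hwn z' h7.1 with h9 | h9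
              · subst h9; exact htF h8.1
              · subst h9; exact h8.2.1 ⟨rfl, rfl⟩
          by_cases hyt2 : F2.Adj y t
          swap
          · exact swapstep hC ih hn hS hyt hyt2 hyy hay.symm ht2 htF hta.symm hns
          · -- rotation
            have haw2 : F2.Adj a w := by
              by_contra haw2
              obtain ⟨t2, ht22, ht2t⟩ := ex_other h2a t
              have ht2w : t2 ≠ w := by
                rintro rfl
                exact haw2 ht22
              have ht2F : ¬ F.Adj a t2 := fun h3 => ht2w (hwu t2 h3)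
              obtain ⟨y2, k1, k2, -⟩ := hgood t2 ht22 ht2F (h2a' t2 ht22 ht2F)
              have hy2 : y2 = y := by
                rcases hwn y2 k1 with h6 | h6
                · subst h6; exact absurd k2 ht2F
                · exact h6
              subst hy2
              rcases hyn t2 k2 with h6 | h6
              · exact ht2w h6
              · exact ht2t h6
            have hwy2 : ¬ F2.Adj w y := fun h3 =>
              hC.n2.2 a w y t hay htw.symm haw2 h3 hyt2 ht2.symm
            have han := two_nbrs h2a haw2 ht2 htw.symm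
            have hy22 : dg F2 y = 2 := by
              have := adj_pos hyt2
              rcases hC.g2 y with h6 | h6 <;> omega
            obtain ⟨y', hy'2, hy't⟩ := ex_other hy22 t
            have hy'w : y' ≠ w := by
              rintro rfl
              exact hwy2 hy'2.symm
            have hy'a : y' ≠ a := by
              rintro rfl
              rcases han y hy'2.symm with h6 | h6
              · exact nwy h6.symm
              · exact nyt h6
            have hyb : y ≠ b := by
              rintro rfl
              omega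
            have htb : t ≠ b := by
              rintro rfl
              have := adj_pos ht2.symm
              omega
            have mp := dg_rem_left F hyt
            have mq := dg_rem_right F hyt
            have mo : ∀ v, v ≠ y → v ≠ t → dg (remE F y t) v = dg F v :=
              fun v h3 h4 => dg_rem_other F h3 h4
            have hmF : ¬ (remE F y t).Adj a t := fun h => htF h.1
            have la := dg_add_left (remE F y t) hta.symm hmF
            have lq := dg_add_right (remE F y t) hta.symm hmF
            have lo : ∀ v, v ≠ a → v ≠ t →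
                dg (addE (remE F y t) a t hta.symm) v = dg (remE F y t) v :=
              fun v h3 h4 => dg_add_other _ hta.symm h3 h4
            have ma := mo a hay hta.symm
            have hqq : dg (addE (remE F y t) a t hta.symm) t = dg F t := by omega
            have hall : ∀ v, v ≠ y → v ≠ a →
                dg (addE (remE F y t) a t hta.symm) v = dg F v := by
              intro v h3 h4
              by_cases h5 : v = t
              · rw [h5]; exact hqq
              · rw [lo v h4 h5, mo v h3 h5]
            have haa : dg (addE (remE F y t) a t hta.symm) a = 2 := by omega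
            have hyy1 : dg (addE (remE F y t) a t hta.symm) y = 1 := by
              rw [lo y hay.symm nyt]; omega
            have hS' : S5 F1 F2 A b d e0 y (addE (remE F y t) a t hta.symm) := by
              refine ⟨?_, hns, hyb, hyd, ?_, ?_, hyy1, ?_, ?_, ?_⟩
              · intro u v huv
                rcases huv with h3 | h3 | h3
                · exact hS.le u v h3.1
                · rw [h3.1, h3.2]; exact Or.inr ht2
                · rw [h3.1, h3.2]; exact Or.inr ht2.symm
              · rw [hall d hyd.symm hS.ad.symm]; exact hS.dd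
              · rw [hall b hyb.symm hS.ab.symm]; exact hS.db
              · intro v h3 h4
                by_cases hva : v = a
                · subst hva; right; exact haa
                · rw [hall v h3 hva]; exact hS.dv v hva h4
              · intro v hv h3 h4
                by_cases hva : v = a
                · subst hva; exact haa
                · rw [hall v h3 hva]; exact hS.dA v hv hva h4
              · rcases hS.inv with h3 | h3
                · by_cases htd : t = d
                  · subst htd
                    have he : e0 = y := one_nbr hdd0 hyt.symm e0 h3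
                    subst he
                    right
                    refine ⟨a, w, hay, ht2.symm, haw2, ?_⟩
                    rcases hS.le w e0 hwy with h4 | h4
                    · exact h4
                    · exact absurd h4 hwy2
                  · exact Or.inl (Or.inl ⟨h3, fun h4 => hyd h4.1.symm,
                      fun h4 => htd h4.1.symm⟩)
                · exact Or.inr h3
            have hn' : ms (addE (remE F y t) a t hta.symm) F2 ≤ n + 1 := by
              have e1 := ms_rem_le F F2 y t
              have e2 := ms_add_eq (remE F y t) F2 hta.symm hmF ht2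
              omega
            -- neighbours in the new graph
            have ny : ∀ v, (addE (remE F y t) a t hta.symm).Adj y v → v = w := by
              intro v hv
              rcases hv with h3 | h3 | h3
              · rcases hyn v h3.1 with h4 | h4
                · exact h4
                · exact absurd ⟨rfl, h4⟩ h3.2.1
              · exact absurd h3.1.symm hay
              · exact absurd h3.1 nyt
            have nw : ∀ v, (addE (remE F y t) a t hta.symm).Adj w v → v = a ∨ v = y := by
              intro v hv
              rcases hv with h3 | h3 | h3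
              · exact hwn v h3.1
              · exact absurd h3.1 hwa
              · exact absurd h3.1.symm htw
            have na : ∀ v, (addE (remE F y t) a t hta.symm).Adj a v → v = w ∨ v = t := by
              intro v hv
              rcases hv with h3 | h3 | h3
              · exact Or.inl (hwu v h3.1)
              · exact Or.inr h3.2
              · exact absurd h3.1.symm hta
            refine addstep hC ih hn' hS' hy'2 ?_ ?_ ?_
            · intro h3
              exact hy'w (ny y' h3)
            · intro z h3 h4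
              rw [ny z h3] at h4
              rcases nw y' h4 with h5 | h5
              · exact hy'a h5
              · exact (F2.ne_of_adj hy'2) h5.symm
            · intro z z' h3 h4 h5
              rw [ny z h3] at h4
              rcases nw z' h4 with h6 | h6
              · rw [h6] at h5
                rcases na y' h5 with h7 | h7
                · exact hy'w h7
                · exact hy't h7
              · rw [h6] at h5
                exact hy'w (ny y' h5)

end

end H58E
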