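import Pool.Agent.Lib.H58E.Exch5

/-! Exchange lemma for cycles of length at least five: the closing steps. -/

namespace H58E

open SimpleGraph

set_option linter.unusedSectionVars false

variable {V : Type*} [Finite V]

/-- the exchange problem for an edge `b d` of `G` -/
structure Prob (G F1 F2 : SimpleGraph V) (A : Set V) (b d : V) : Prop where
  le1 : F1 ≤ G
  le2 : F2 ≤ G
  n1 : NS F1
  n2 : NS F2
  g1 : ∀ v, dg F1 v = 0 ∨ dg F1 v = 2
  g2 : ∀ v, dg F2 v = 0 ∨ dg F2 v = 2
  A1 : ∀ v ∈ A, dg F1 v = 2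
  A2 : ∀ v ∈ A, dg F2 v = 2
  b1 : dg F1 b = 2
  d2 : dg F2 d = 2
  d1 : dg F1 d = 0
  b2 : dg F2 b = 0

theorem Prob.bd {G F1 F2 : SimpleGraph V} {A : Set V} {b d : V} (h : Prob G F1 F2 A b d) :
    b ≠ d := by
  rintro rfl
  have := h.b1
  have := h.d1
  omega

theorem Prob.ctx {G F1 F2 : SimpleGraph V} {A : Set V} {b d : V} (h : Prob G F1 F2 A b d) :
    Ctx F1 F2 A b d := ⟨h.bd, h.d1, h.b2, h.g2, h.A2, h.A1, h.n2⟩

theorem Prob.symm {G F1 F2 : SimpleGraph V} {A : Set V} {b d : V} (h : Prob G F1 F2 A b d) :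
    Prob G F2 F1 A d b :=
  ⟨h.le2, h.le1, h.n2, h.n1, h.g2, h.g1, h.A2, h.A1, h.d2, h.b1, h.b2, h.d1⟩

theorem cov5_of {G F : SimpleGraph V} {A : Set V} (h1 : F ≤ G)
    (h2 : ∀ v, dg F v = 0 ∨ dg F v = 2) (h3 : ∀ v ∈ A, dg F v = 2) (h4 : NS F) : Cov5 G A :=
  ⟨F, h1, h2, h3, h4⟩

/-- start of the walk -/
theorem start5 {G F1 F2 : SimpleGraph V} {A : Set V} {b d : V} (h : Prob G F1 F2 A b d) {a : V}
    (ha2 : F2.Adj d a) : ∃ F' : SimpleGraph V, Res5 F1 F2 A b d a F' := by
  have hC := h.ctx
  have hbd := h.bd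
  have hd1 := h.d1
  have hb2 := h.b2
  have hb1 := h.b1
  have hAb : b ∉ A := fun h' => by have := h.A2 b h'; omega
  have hAd : d ∉ A := fun h' => by have := h.A1 d h'; omega
  have ha1 : ¬ F1.Adj d a := fun h3 => by have := adj_pos h3; omega
  have hda : d ≠ a := F2.ne_of_adj ha2
  have hab : a ≠ b := by
    rintro rfl
    have := adj_pos ha2.symm
    omega
  have h2a : dg F2 a = 2 := by
    have := adj_pos ha2.symm
    rcases h.g2 a with h3 | h3 <;> omega
  rcases h.g1 a with ha0 | ha0
  · have ld := dg_add_left F1 hda ha1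
    have la := dg_add_right F1 hda ha1
    have lo : ∀ v, v ≠ d → v ≠ a → dg (addE F1 d a hda) v = dg F1 v :=
      fun v h3 h4 => dg_add_other F1 hda h3 h4
    refine walk5 hC _ (addE F1 d a hda) a le_rfl
      ⟨?_, ?_, hab, hda.symm, by omega, by rw [lo b hbd hab.symm]; exact hb1, by omega,
        ?_, ?_, Or.inl (Or.inr (Or.inl ⟨rfl, rfl⟩))⟩
    · intro u v huv
      rcases huv with h3 | h3 | h3
      · exact Or.inl h3
      · rw [h3.1, h3.2]; exact Or.inr ha2
      · rw [h3.1, h3.2]; exact Or.inr ha2.symm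
    · refine ns_add h.n1 hda ?_ ?_
      · intro z h3 _
        have := adj_pos h3
        omega
      · intro z z' h3 _ _
        have := adj_pos h3
        omega
    · intro v hva hvd
      rw [lo v hvd hva]; exact h.g1 v
    · intro v hv hva hvd
      rw [lo v hvd hva]; exact h.A1 v hv
  · obtain ⟨z, hz1, hz2⟩ := ex_nbr_ne ha0 h2a ha2.symm (fun h' => ha1 h'.symm)
    have haz : a ≠ z := F1.ne_of_adj hz1
    have hzd : z ≠ d := by
      rintro rfl
      have := adj_pos hz1.symm
      omega
    have hz0 : dg F1 z = 2 := by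
      have := adj_pos hz1.symm
      rcases h.g1 z with h3 | h3 <;> omega
    have ma := dg_rem_left F1 hz1
    have mz := dg_rem_right F1 hz1
    have mo : ∀ v, v ≠ a → v ≠ z → dg (remE F1 a z) v = dg F1 v :=
      fun v h3 h4 => dg_rem_other F1 h3 h4
    have hmF : ¬ (remE F1 a z).Adj d a := fun h' => ha1 h'.1
    have ld := dg_add_left (remE F1 a z) hda hmF
    have la := dg_add_right (remE F1 a z) hda hmF
    have lo : ∀ v, v ≠ d → v ≠ a → dg (addE (remE F1 a z) d a hda) v =
        dg (remE F1 a z) v := fun v h3 h4 => dg_add_other _ hda h3 h4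
    have md := mo d hda hzd.symm
    have hle : ∀ u v, (addE (remE F1 a z) d a hda).Adj u v →
        F1.Adj u v ∨ F2.Adj u v := by
      intro u v huv
      rcases huv with h3 | h3 | h3
      · exact Or.inl h3.1
      · rw [h3.1, h3.2]; exact Or.inr ha2
      · rw [h3.1, h3.2]; exact Or.inr ha2.symm
    have hns : NS (addE (remE F1 a z) d a hda) := by
      refine ns_add (ns_rem h.n1 a z) hda ?_ ?_
      · intro t ht1 _
        have := adj_pos ht1.1
        omega
      · intro t t' ht1 _ _
        have := adj_pos ht1.1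
        omega
    have hzz : dg (addE (remE F1 a z) d a hda) z = 1 := by
      rw [lo z hzd haz.symm]; omega
    have hinv : (addE (remE F1 a z) d a hda).Adj d a ∨ Q5 F1 F2 d a :=
      Or.inl (Or.inr (Or.inl ⟨rfl, rfl⟩))
    by_cases hzb : z = b
    · subst hzb
      refine ⟨_, hle, hns, Or.inr ⟨hzz, by omega, ?_, ?_, hinv⟩⟩
      · intro v h3 h4
        by_cases hva : v = a
        · subst hva; right; omega
        · rw [lo v h4 hva, mo v hva h3]; exact h.g1 v
      · intro v hv
        have hvz : v ≠ z := fun h' => hAb (h' ▸ hv)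
        have hvd : v ≠ d := fun h' => hAd (h' ▸ hv)
        by_cases hva : v = a
        · subst hva; omega
        · rw [lo v hvd hva, mo v hva hvz]; exact h.A1 v hv
    · refine walk5 hC _ _ z le_rfl
        ⟨hle, hns, hzb, hzd, by omega, ?_, hzz, ?_, ?_, hinv⟩
      · rw [lo b hbd hab.symm, mo b hab.symm (Ne.symm hzb)]; exact hb1
      · intro v h3 h4
        by_cases hva : v = a
        · subst hva; right; omega
        · rw [lo v h4 hva, mo v hva h3]; exact h.g1 v
      · intro v hv h3 h4
        by_cases hva : v = a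
        · subst hva; omega
        · rw [lo v h4 hva, mo v hva h3]; exact h.A1 v hv

/-- closing two ends with a path through unused vertices, without a cycle of length 3 or 4 -/
theorem path_close5 (G : SimpleGraph V) {c d : V} (p : G.Walk c d) :
    p.IsPath → c ≠ d → ∀ F : SimpleGraph V, F ≤ G → NS F → dg F c = 1 → dg F d = 1 →
      ¬ F.Adj c d → (∀ z, F.Adj c z → F.Adj z d → False) →
      (G.Adj c d → ∀ z z', F.Adj c z → F.Adj z z' → F.Adj z' d → False) →
      (∀ v ∈ p.support, v ≠ c → v ≠ d → dg F v = 0) →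
      (∀ v, v ≠ c → v ≠ d → dg F v = 0 ∨ dg F v = 2) →
      ∃ F' : SimpleGraph V, F' ≤ G ∧ NS F' ∧ (∀ v, dg F' v = 0 ∨ dg F' v = 2) ∧
        dg F' c = 2 ∧ dg F' d = 2 ∧ ∀ v, dg F v = 2 → dg F' v = 2 := by
  induction p with
  | nil => intro _ h; exact absurd rfl h
  | @cons c x d h q ih =>
    intro hp hcd F hFG hns hc hd hcd' w2 w3 hin hot
    have hcx : c ≠ x := G.ne_of_adj h
    rw [SimpleGraph.Walk.cons_isPath_iff] at hp
    by_cases hxd : x = d
    · subst hxd
      have lc := dg_add_left F hcx hcd'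
      have lx := dg_add_right F hcx hcd'
      have lo : ∀ v, v ≠ c → v ≠ x → dg (addE F c x hcx) v = dg F v :=
        fun v h3 h4 => dg_add_other F hcx h3 h4
      refine ⟨addE F c x hcx, ?_, ns_add hns hcx w2 (w3 h), ?_, by omega, by omega, ?_⟩
      · intro u v huv
        rcases huv with h3 | h3 | h3
        · exact hFG h3
        · rw [h3.1, h3.2]; exact h
        · rw [h3.1, h3.2]; exact h.symm
      · intro v
        by_cases hvc : v = c
        · subst hvc; right; omega
        · by_cases hvx : v = x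
          · subst hvx; right; omega
          · rw [lo v hvc hvx]; exact hot v hvc hvx
      · intro v hv
        have hvc : v ≠ c := by rintro rfl; omega
        have hvx : v ≠ x := by rintro rfl; omega
        rw [lo v hvc hvx]; exact hv
    · have hx0 : dg F x = 0 := hin x (by simp) hcx.symm hxd
      have hxn : ∀ z, ¬ F.Adj x z := fun z h3 => by
        have := adj_pos h3
        omega
      have hncx : ¬ F.Adj c x := fun h3 => hxn c h3.symm
      have lc := dg_add_left F hcx hncx
      have lx := dg_add_right F hcx hncx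
      have lo : ∀ v, v ≠ c → v ≠ x → dg (addE F c x hcx) v = dg F v :=
        fun v h3 h4 => dg_add_other F hcx h3 h4
      have hnx : ∀ z, (addE F c x hcx).Adj x z → z = c := by
        intro z hz
        rcases hz with h3 | h3 | h3
        · exact absurd h3 (hxn z)
        · exact absurd h3.1.symm hcx
        · exact h3.2
      have hncd : ¬ (addE F c x hcx).Adj c d := by
        rintro (h3 | h3 | h3)
        · exact hcd' h3
        · exact hxd h3.2.symm
        · exact hcx h3.1
      have hnxd : ¬ (addE F c x hcx).Adj x d := fun h3 => hcd (hnx d h3).symm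
      obtain ⟨F', hF1, hF0, hF2, hF3, hF4, hF5⟩ := ih hp.1 hxd (addE F c x hcx) (by
        intro u v huv
        rcases huv with h3 | h3 | h3
        · exact hFG h3
        · rw [h3.1, h3.2]; exact h
        · rw [h3.1, h3.2]; exact h.symm)
        (ns_add hns hcx (fun z _ h4 => hxn z h4.symm) (fun z z' _ _ h5 => hxn z' h5.symm))
        (by omega)
        (by rw [lo d hcd.symm (Ne.symm hxd)]; exact hd) hnxd
        (by
          intro z hz1 hz2
          rw [hnx z hz1] at hz2
          exact hncd hz2)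
        (by
          intro _ z z' hz1 hz2 hz3
          rw [hnx z hz1] at hz2
          rcases hz2 with h3 | h3 | h3
          · rcases hz3 with h4 | h4 | h4
            · exact w2 z' h3 h4
            · exact hxd h4.2.symm
            · exact hcd h4.2.symm
          · rw [h3.2] at hz3
            exact hnxd hz3
          · exact hcx h3.1)
        (by
          intro v hv hvx hvd
          have hvc : v ≠ c := fun h3 => hp.2 (h3 ▸ hv)
          rw [lo v hvc hvx]
          exact hin v (by simp [hv]) hvc hvd)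
        (by
          intro v hvx hvd
          by_cases hvc : v = c
          · subst hvc; right; omega
          · rw [lo v hvc hvx]; exact hot v hvc hvd)
      refine ⟨F', hF1, hF0, hF2, hF5 c (by omega), hF4, ?_⟩
      intro v hv
      have hvc : v ≠ c := by rintro rfl; omega
      have hvx : v ≠ x := by rintro rfl; omega
      exact hF5 v (by rw [lo v hvc hvx]; exact hv)

/-- insertion of a path into an edge `b w` -/
theorem ins5 {G F1 F2 : SimpleGraph V} {A : Set V} {b d : V} (h : Prob G F1 F2 A b d)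
    {w : V} (hbw : F1.Adj b w) (hwd : G.Adj w d) (p : G.Walk b d) (hp : p.IsPath)
    (hin : ∀ v ∈ p.support, v ≠ b → v ≠ d → dg F1 v = 0) :
    Cov5 G (insert d (insert b A)) := by
  have hbd := h.bd
  have hb1 := h.b1
  have hd1 := h.d1
  have nbw : b ≠ w := F1.ne_of_adj hbw
  have nwd : w ≠ d := G.ne_of_adj hwd
  have w1 : dg F1 w = 2 := by
    have := adj_pos hbw.symm
    rcases h.g1 w with h3 | h3 <;> omega
  have r1 := dg_rem_left F1 hbw
  have r2 := dg_rem_right F1 hbw
  have r3 : ∀ v, v ≠ b → v ≠ w → dg (remE F1 b w) v = dg F1 v :=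
    fun v h3 h4 => dg_rem_other F1 h3 h4
  have rd := r3 d hbd.symm nwd.symm
  have hdn : ∀ z, ¬ F1.Adj z d := fun z h3 => by
    have := adj_pos h3.symm
    omega
  have nd : ¬ (remE F1 b w).Adj w d := fun h3 => hdn w h3.1
  have s1 := dg_add_left (remE F1 b w) nwd nd
  have s2 := dg_add_right (remE F1 b w) nwd nd
  have s3 : ∀ v, v ≠ w → v ≠ d → dg (addE (remE F1 b w) w d nwd) v = dg (remE F1 b w) v :=
    fun v h3 h4 => dg_add_other _ nwd h3 h4
  have sb := s3 b nbw hbd
  have hle : addE (remE F1 b w) w d nwd ≤ G := by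
    intro u v huv
    rcases huv with h3 | h3 | h3
    · exact h.le1 h3.1
    · rw [h3.1, h3.2]; exact hwd
    · rw [h3.1, h3.2]; exact hwd.symm
  have hns : NS (addE (remE F1 b w) w d nwd) :=
    ns_add (ns_rem h.n1 b w) nwd (fun z _ h4 => hdn z h4.1) (fun z z' _ _ h5 => hdn z' h5.1)
  have hdw : ∀ z, (addE (remE F1 b w) w d nwd).Adj z d → z = w := by
    rintro z (h3 | h3 | h3)
    · exact absurd h3.1 (hdn z)
    · exact h3.1
    · exact absurd h3.2.symm nwd
  have hbz : ∀ z, (addE (remE F1 b w) w d nwd).Adj b z → F1.Adj b z ∧ z ≠ w := by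
    rintro z (h3 | h3 | h3)
    · exact ⟨h3.1, fun h4 => h3.2.1 ⟨rfl, h4⟩⟩
    · exact absurd h3.1 nbw
    · exact absurd h3.1 hbd
  have hin' : ∀ v ∈ p.support, v ≠ b → v ≠ d →
      dg (addE (remE F1 b w) w d nwd) v = 0 := by
    intro v hv h3 h4
    have h5 := hin v hv h3 h4
    have h6 : v ≠ w := by rintro rfl; omega
    rw [s3 v h6 h4, r3 v h3 h6]; exact h5
  obtain ⟨F', m1, m0, m2, m3, m4, m5⟩ := path_close5 G p hp hbd _ hle hns (by omega) (by omega)
    (fun h3 => nbw (hdw b h3))
    (by
      intro z h3 h4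
      rw [hdw z h4] at h3
      exact (hbz w h3).2 rfl)
    (by
      intro _ z z' h3 h4 h5
      rw [hdw z' h5] at h4
      have h6 := hbz z h3
      rcases h4 with h7 | h7 | h7
      · exact h.n1.1 b z w h6.1 h7.1 hbw.symm
      · exact nwd h7.2
      · have h8 := h6.1
        rw [h7.1] at h8
        exact hdn b h8)
    hin'
    (by
      intro v h3 h4
      by_cases h5 : v = w
      · subst h5; right; omega
      · rw [s3 v h5 h4, r3 v h3 h5]; exact h.g1 v)
  refine cov5_of m1 m2 ?_ m0
  intro v hv
  rcases hv with rfl | rfl | hv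
  · exact m4
  · exact m3
  · apply m5
    have h3 := h.A1 v hv
    have h4 : v ≠ b := by
      rintro rfl
      have := h.A2 v hv
      have := h.b2
      omega
    have h5 : v ≠ d := by rintro rfl; omega
    by_cases h6 : v = w
    · subst h6; omega
    · rw [s3 v h6 h5, r3 v h4 h6]; exact h3

/-- closing with the edge `b d` -/
theorem close_edge {G F' : SimpleGraph V} {A : Set V} {b d : V} (hG : G.Adj b d) (hle : F' ≤ G)
    (hns : NS F') (hb : dg F' b = 1) (hd : dg F' d = 1)
    (hv : ∀ v, v ≠ b → v ≠ d → dg F' v = 0 ∨ dg F' v = 2) (hA : ∀ v ∈ A, dg F' v = 2)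
    (hn : ¬ F'.Adj b d) (w2 : ∀ z, F'.Adj b z → F'.Adj z d → False)
    (w3 : ∀ z z', F'.Adj b z → F'.Adj z z' → F'.Adj z' d → False) :
    Cov5 G (insert d (insert b A)) := by
  have hbd : b ≠ d := G.ne_of_adj hG
  have lc := dg_add_left F' hbd hn
  have lx := dg_add_right F' hbd hn
  have lo : ∀ v, v ≠ b → v ≠ d → dg (addE F' b d hbd) v = dg F' v :=
    fun v h3 h4 => dg_add_other F' hbd h3 h4
  refine cov5_of (F := addE F' b d hbd) ?_ ?_ ?_ (ns_add hns hbd w2 w3)
  · intro u v huv
    rcases huv with h3 | h3 | h3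
    · exact hle h3
    · rw [h3.1, h3.2]; exact hG
    · rw [h3.1, h3.2]; exact hG.symm
  · intro v
    by_cases h3 : v = b
    · subst h3; right; omega
    · by_cases h4 : v = d
      · subst h4; right; omega
      · rw [lo v h3 h4]; exact hv v h3 h4
  · intro v h5
    rcases h5 with rfl | rfl | h5
    · omega
    · omega
    · have h6 := hA v h5
      have h3 : v ≠ b := by rintro rfl; omega
      have h4 : v ≠ d := by rintro rfl; omega
      rw [lo v h3 h4]; exact h6

/-- replacement of `w` by `d` in the cycle of `F1` through `b w w'` -/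
theorem step3 {N : ℕ} {G F1 F2 : SimpleGraph V} {A : Set V} {b d : V}
    (IH : ∀ (F1 F2 : SimpleGraph V) (A : Set V) (b d : V), ms F1 F2 < N →
      Prob G F1 F2 A b d → G.Adj b d → Cov5 G (insert d (insert b A)))
    (h : Prob G F1 F2 A b d) (hN : ms F1 F2 ≤ N) (hG : G.Adj b d) {w w' : V}
    (hbw : F1.Adj b w) (hww : F1.Adj w w') (hw'b : w' ≠ b) (hw'd : F2.Adj w' d)
    (hor : ¬ F2.Adj w w' ∨ w ∉ A) : Cov5 G (insert d (insert b A)) := by
  have hbd := h.bd
  have hb1 := h.b1
  have hd1 := h.d1
  have hb2 := h.b2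
  have nbw : b ≠ w := F1.ne_of_adj hbw
  have nww : w ≠ w' := F1.ne_of_adj hww
  have ndw' : d ≠ w' := (F2.ne_of_adj hw'd).symm
  have ndw : d ≠ w := by
    rintro rfl
    have := adj_pos hww
    omega
  have w1 : dg F1 w = 2 := by
    have := adj_pos hww
    rcases h.g1 w with h3 | h3 <;> omega
  have w'1 : dg F1 w' = 2 := by
    have := adj_pos hww.symm
    rcases h.g1 w' with h3 | h3 <;> omega
  have hwn := two_nbrs w1 hbw.symm hww hw'b.symm
  -- first removal
  have a1 := dg_rem_left F1 hbw
  have a2 := dg_rem_right F1 hbw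
  have a3 : ∀ v, v ≠ b → v ≠ w → dg (remE F1 b w) v = dg F1 v :=
    fun v h3 h4 => dg_rem_other F1 h3 h4
  have hww' : (remE F1 b w).Adj w w' :=
    ⟨hww, fun h3 => nbw h3.1.symm, fun h3 => hw'b h3.2⟩
  have b1 := dg_rem_left (remE F1 b w) hww'
  have b2 := dg_rem_right (remE F1 b w) hww'
  have b3 : ∀ v, v ≠ w → v ≠ w' → dg (remE (remE F1 b w) w w') v = dg (remE F1 b w) v :=
    fun v h3 h4 => dg_rem_other _ h3 h4
  set M := remE (remE F1 b w) w w' with hM
  have hMle : ∀ u v, M.Adj u v → F1.Adj u v := fun u v huv => huv.1.1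
  have hdn : ∀ z, ¬ F1.Adj d z := fun z h3 => by
    have := adj_pos h3
    omega
  have hMw : ∀ z, ¬ M.Adj w z := by
    intro z hz
    rcases hwn z (hMle _ _ hz) with h3 | h3
    · subst h3; exact hz.1.2.2 ⟨rfl, rfl⟩
    · subst h3; exact hz.2.1 ⟨rfl, rfl⟩
  have hMns : NS M := ns_rem (ns_rem h.n1 b w) w w'
  have n1 : ¬ M.Adj b d := fun h3 => hdn b (hMle _ _ h3).symm
  have c1 := dg_add_left M hbd n1
  have c2 := dg_add_right M hbd n1
  have c3 : ∀ v, v ≠ b → v ≠ d → dg (addE M b d hbd) v = dg M v :=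
    fun v h3 h4 => dg_add_other M hbd h3 h4
  set M1 := addE M b d hbd with hM1
  have hM1ns : NS M1 := ns_add hMns hbd (fun z _ h4 => hdn z (hMle _ _ h4).symm)
    (fun z z' _ _ h5 => hdn z' (hMle _ _ h5).symm)
  have hdb : ∀ z, M1.Adj d z → z = b := by
    rintro z (h3 | h3 | h3)
    · exact absurd (hMle _ _ h3) (hdn z)
    · exact absurd h3.1.symm hbd
    · exact h3.2
  have n2 : ¬ M1.Adj d w' := fun h3 => hw'b (hdb w' h3)
  have e1 := dg_add_left M1 ndw' n2
  have e2 := dg_add_right M1 ndw' n2
  have e3 : ∀ v, v ≠ d → v ≠ w' → dg (addE M1 d w' ndw') v = dg M1 v :=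
    fun v h3 h4 => dg_add_other M1 ndw' h3 h4
  set F3 := addE M1 d w' ndw' with hF3
  have hM1b : ∀ z, M1.Adj b z → z ≠ d → F1.Adj b z ∧ z ≠ w := by
    rintro z (h3 | h3 | h3) h4
    · exact ⟨hMle _ _ h3, fun h5 => h3.1.2.1 ⟨rfl, h5⟩⟩
    · exact absurd h3.2 h4
    · exact absurd h3.1 hbd
  have hbw' : ¬ F1.Adj b w' := fun h3 => h.n1.1 b w w' hbw hww h3.symm
  have hns3 : NS F3 := by
    refine ns_add hM1ns ndw' ?_ ?_
    · intro z h3 h4
      rw [hdb z h3] at h4
      exact hbw' (hM1b w' h4 ndw'.symm).1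
    · intro z z' h3 h4 h5
      rw [hdb z h3] at h4
      have hz'd : z' ≠ d := by
        rintro rfl
        exact n2 h5
      obtain ⟨h6, h7⟩ := hM1b z' h4 hz'd
      have h8 : F1.Adj z' w' := by
        rcases h5 with h9 | h9 | h9
        · exact hMle _ _ h9
        · exact absurd h9.2.symm ndw'
        · exact absurd h9.1 hz'd
      exact h.n1.2 b z' w' w hw'b.symm h7 h6 h8 hww.symm hbw.symm
  have gb : dg F3 b = 2 := by
    rw [e3 b hbd hw'b.symm, c1, b3 b nbw hw'b.symm]; omega
  have gd : dg F3 d = 2 := by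
    rw [e1, c2, b3 d ndw ndw', a3 d hbd.symm ndw]; omega
  have gw : dg F3 w = 0 := by
    rw [e3 w ndw.symm nww, c3 w nbw.symm ndw.symm]; omega
  have gw' : dg F3 w' = 2 := by
    rw [e2, c3 w' hw'b ndw'.symm]
    have := a3 w' hw'b nww.symm
    omega
  have go : ∀ v, v ≠ b → v ≠ d → v ≠ w → v ≠ w' → dg F3 v = dg F1 v := by
    intro v h3 h4 h5 h6
    rw [e3 v h4 h6, c3 v h3 h4, b3 v h5 h6, a3 v h3 h5]
  have g3 : ∀ v, dg F3 v = 0 ∨ dg F3 v = 2 := by
    intro v
    by_cases h3 : v = b
    · subst h3; right; exact gb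
    · by_cases h4 : v = d
      · subst h4; right; exact gd
      · by_cases h5 : v = w
        · subst h5; left; exact gw
        · by_cases h6 : v = w'
          · subst h6; right; exact gw'
          · rw [go v h3 h4 h5 h6]; exact h.g1 v
  have hcov : ∀ v ∈ A, v ≠ w → dg F3 v = 2 := by
    intro v hv h5
    have h7 := h.A1 v hv
    by_cases h3 : v = b
    · subst h3; exact gb
    · by_cases h4 : v = d
      · subst h4; exact gd
      · by_cases h6 : v = w'
        · subst h6; exact gw'
        · rw [go v h3 h4 h5 h6]; exact h7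
  have hle3 : F3 ≤ G := by
    intro u v huv
    rcases huv with (h3 | h3 | h3) | h3 | h3
    · exact h.le1 (hMle _ _ h3)
    · rw [h3.1, h3.2]; exact hG
    · rw [h3.1, h3.2]; exact hG.symm
    · rw [h3.1, h3.2]; exact h.le2 hw'd.symm
    · rw [h3.1, h3.2]; exact h.le2 hw'd
  by_cases hwA : w ∈ A
  swap
  · refine cov5_of hle3 g3 ?_ hns3
    intro v hv
    rcases hv with rfl | rfl | hv
    · exact gd
    · exact gb
    · exact hcov v hv (fun h3 => hwA (h3 ▸ hv))
  · have hww2 : ¬ F2.Adj w w' := by
      rcases hor with h3 | h3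
      · exact h3
      · exact absurd hwA h3
    have hbw2 : ¬ F2.Adj b w := fun h3 => by have := adj_pos h3; omega
    have hm : ms F3 F2 < N := by
      have k1 := ms_rem_eq F1 F2 hbw hbw2
      have k2 := ms_rem_eq (remE F1 b w) F2 hww' hww2
      have k3 := ms_add_le M F2 hbd
      have k4 := ms_add_eq M1 F2 ndw' n2 hw'd.symm
      rw [← hM] at k2
      rw [← hM1] at k3
      rw [← hF3] at k4
      omega
    have hP : Prob G F3 F2 (insert d (A \ {w})) b w := by
      refine ⟨hle3, h.le2, hns3, h.n2, g3, h.g2, ?_, ?_, gb, h.A2 w hwA, gw, hb2⟩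
      · intro v hv
        rcases hv with rfl | hv
        · exact gd
        · exact hcov v hv.1 (fun h3 => hv.2 (by rw [Set.mem_singleton_iff]; exact h3))
      · intro v hv
        rcases hv with rfl | hv
        · exact h.d2
        · exact h.A2 v hv.1
    obtain ⟨F, k1, k2, k3, k4⟩ := IH F3 F2 _ b w hm hP (h.le1 hbw)
    refine ⟨F, k1, k2, ?_, k4⟩
    intro v hv
    apply k3
    rcases hv with rfl | rfl | hv
    · exact Or.inr (Or.inr (Or.inl rfl))
    · exact Or.inr (Or.inl rfl)
    · by_cases h5 : v = w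
      · exact Or.inl h5
      · exact Or.inr (Or.inr (Or.inr ⟨hv, by rw [Set.mem_singleton_iff]; exact h5⟩))

/-- the edge case of the exchange -/
theorem edge5 {G : SimpleGraph V} : ∀ (N : ℕ) (F1 F2 : SimpleGraph V) (A : Set V) (b d : V),
    ms F1 F2 < N → Prob G F1 F2 A b d → G.Adj b d → Cov5 G (insert d (insert b A)) := by
  intro N
  induction N with
  | zero => intro F1 F2 A b d h; omega
  | succ N IH =>
    intro F1 F2 A b d hN h hG
    have hN' : ms F1 F2 ≤ N := by omega
    have hN'' : ms F2 F1 ≤ N := by rw [ms_comm]; exact hN'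
    have hbd := h.bd
    have hb1 := h.b1
    have hd1 := h.d1
    have hb2 := h.b2
    have hd2 := h.d2
    have hdn : ∀ z, ¬ F1.Adj d z := fun z h3 => by
      have := adj_pos h3
      omega
    have hbn : ∀ z, ¬ F2.Adj b z := fun z h3 => by
      have := adj_pos h3
      omega
    -- the edge as a path
    have hpath : ∀ w, F1.Adj b w → G.Adj w d → Cov5 G (insert d (insert b A)) := by
      intro w h3 h4
      refine ins5 h h3 h4 (SimpleGraph.Walk.cons hG SimpleGraph.Walk.nil) ?_ ?_
      · simp [SimpleGraph.Walk.cons_isPath_iff, hbd]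
      · intro v hv h5 h6
        simp only [SimpleGraph.Walk.support_cons, SimpleGraph.Walk.support_nil,
          List.mem_cons, List.not_mem_nil, or_false] at hv
        rcases hv with h7 | h7
        · exact absurd h7 h5
        · exact absurd h7 h6
    -- the replacement steps
    have hrep : ∀ w w', F1.Adj b w → F2.Adj w' d → w' ≠ b → w ≠ d →
        (F1.Adj w w' ∨ F2.Adj w w') → (¬ (F1.Adj w w' ∧ F2.Adj w w') ∨ w ∉ A ∨ w' ∉ A) →
        Cov5 G (insert d (insert b A)) := by
      intro w w' h3 h4 h5 h6 h7 h8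
      by_cases k1 : F1.Adj w w'
      · by_cases k2 : F2.Adj w w'
        · rcases h8 with h8 | h8 | h8
          · exact absurd ⟨k1, k2⟩ h8
          · exact step3 IH h hN' hG h3 k1 h5 h4 (Or.inr h8)
          · have := step3 (F1 := F2) (F2 := F1) (b := d) (d := b) (w := w') (w' := w) IH
              h.symm hN'' hG.symm h4.symm k2.symm h6 h3.symm (Or.inr h8)
            rw [Set.insert_comm] at this
            exact this
        · exact step3 IH h hN' hG h3 k1 h5 h4 (Or.inl k2)
      · have k2 : F2.Adj w w' := by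
          rcases h7 with h7 | h7
          · exact absurd h7 k1
          · exact h7
        have := step3 (F1 := F2) (F2 := F1) (b := d) (d := b) (w := w') (w' := w) IH
          h.symm hN'' hG.symm h4.symm k2.symm h6 h3.symm (Or.inl fun h9 => k1 h9.symm)
        rw [Set.insert_comm] at this
        exact this
    -- analysis of a result of the walk
    have hfin : ∀ e0, ∀ F' : SimpleGraph V, Res5 F1 F2 A b d e0 F' →
        Cov5 G (insert d (insert b A)) ∨
          (dg F' b = 1 ∧ dg F' d = 1 ∧ (∀ v, v ≠ b → v ≠ d → dg F' v = 0 ∨ dg F' v = 2) ∧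
            (∀ v ∈ A, dg F' v = 2) ∧ (F'.Adj d e0 ∨ Q5 F1 F2 d e0) ∧
            ∃ w w', F'.Adj b w ∧ F'.Adj w w' ∧ F'.Adj w' d ∧ F1.Adj b w ∧ F2.Adj w' d ∧
              w' ≠ b ∧ w ≠ d) := by
      rintro e0 F' ⟨hle, hns, hF'⟩
      have hF'G : F' ≤ G := by
        intro u v huv
        rcases hle u v huv with h3 | h3
        · exact h.le1 h3
        · exact h.le2 h3
      rcases hF' with ⟨k1, k2, k3, k4⟩ | ⟨k1, k2, k3, k4, k5⟩
      · left
        refine cov5_of hF'G k1 ?_ hns
        intro v hv
        rcases hv with rfl | rfl | hv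
        · exact k4
        · exact k3
        · exact k2 v hv
      · have hnbd : ¬ F'.Adj b d := by
          intro h3
          rcases hle b d h3 with h4 | h4
          · exact hdn b h4.symm
          · exact hbn d h4
        have hb' : ∀ z, F'.Adj b z → F1.Adj b z := by
          intro z h3
          rcases hle b z h3 with h4 | h4
          · exact h4
          · exact absurd h4 (hbn z)
        have hd' : ∀ z, F'.Adj z d → F2.Adj z d := by
          intro z h3
          rcases hle z d h3 with h4 | h4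
          · exact absurd h4.symm (hdn z)
          · exact h4
        by_cases c2 : ∃ z, F'.Adj b z ∧ F'.Adj z d
        · obtain ⟨z, h3, h4⟩ := c2
          exact Or.inl (hpath z (hb' z h3) (hF'G h4))
        · by_cases c3 : ∃ z z', F'.Adj b z ∧ F'.Adj z z' ∧ F'.Adj z' d
          · obtain ⟨z, z', h3, h4, h5⟩ := c3
            refine Or.inr ⟨k1, k2, k3, k4, k5, z, z', h3, h4, h5, hb' z h3, hd' z' h5, ?_, ?_⟩
            · rintro rfl
              exact hnbd h5
            · rintro rfl
              exact hnbd h3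
          · left
            exact close_edge hG hF'G hns k1 k2 k3 k4 hnbd (fun z h3 h4 => c2 ⟨z, h3, h4⟩)
              (fun z z' h3 h4 h5 => c3 ⟨z, z', h3, h4, h5⟩)
    -- first walk
    obtain ⟨a0, ha0⟩ : ∃ z, F2.Adj d z := by
      have h3 : 0 < dg F2 d := by omega
      unfold dg at h3
      rw [Set.ncard_pos (Set.toFinite _)] at h3
      exact h3
    obtain ⟨F', hF'⟩ := start5 h ha0
    rcases hfin a0 F' hF' with hdone | ⟨-, -, -, -, -, w, w', p1, p2, p3, p4, p5, p6, p7⟩
    · exact hdone
    have hor1 : F1.Adj w w' ∨ F2.Adj w w' := hF'.1 w w' p2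
    by_cases hboth : ¬ (F1.Adj w w' ∧ F2.Adj w w') ∨ w ∉ A ∨ w' ∉ A
    · exact hrep w w' p4 p5 p6 p7 hor1 hboth
    push Not at hboth
    obtain ⟨⟨hw1, hw2⟩, hwA, hw'A⟩ := hboth
    -- restart
    obtain ⟨de, hde, hdew⟩ := ex_other hd2 w'
    obtain ⟨F'', hF''⟩ := start5 h hde
    rcases hfin de F'' hF'' with hdone | ⟨q1, q2, q3, q4, q5, v, v', r1, r2, r3, r4, r5, r6, r7⟩
    · exact hdone
    have hor2 : F1.Adj v v' ∨ F2.Adj v v' := hF''.1 v v' r2
    by_cases hboth2 : ¬ (F1.Adj v v' ∧ F2.Adj v v') ∨ v ∉ A ∨ v' ∉ A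
    · exact hrep v v' r4 r5 r6 r7 hor2 hboth2
    push Not at hboth2
    obtain ⟨⟨hv1, hv2⟩, hvA, hv'A⟩ := hboth2
    -- degrees
    have w12 : dg F1 w = 2 := h.A1 w hwA
    have w22 : dg F2 w = 2 := h.A2 w hwA
    have w'12 : dg F1 w' = 2 := h.A1 w' hw'A
    have w'22 : dg F2 w' = 2 := h.A2 w' hw'A
    have nde_b : de ≠ b := by
      rintro rfl
      exact hbn d hde.symm
    have f1w := two_nbrs w12 p4.symm hw1 p6.symm
    have f2w' := two_nbrs w'22 p5 hw2.symm p7.symm
    have f2d := two_nbrs hd2 p5.symm hde hdew.symm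
    have nQ : ¬ Q5 F1 F2 d de := by
      rintro ⟨a, u, h3, h4, h5, h6⟩
      have ha : a = w' := by
        rcases f2d a h4 with h7 | h7
        · exact h7
        · exact absurd h7 h3
      subst ha
      rcases f2w' u h5 with h7 | h7
      · rw [h7] at h6; exact hdn de h6
      · rw [h7] at h6
        rcases f1w de h6 with h8 | h8
        · exact nde_b h8
        · exact hdew h8
    have hdde : F''.Adj d de := by
      rcases q5 with h3 | h3
      · exact h3
      · exact absurd h3 nQ
    have ndu := one_nbr q2 hdde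
    have hv'de : v' = de := ndu v' r3.symm
    subst hv'de
    have nbu := one_nbr q1 r1
    -- `v ≠ w`
    have hvw : v ≠ w := by
      rintro rfl
      exact h.n2.2 d w' v v' r7.symm hdew.symm p5.symm hw2.symm hv2 hde.symm
    have nwv' : w ≠ v' := by
      rintro rfl
      exact h.n2.1 d w' w p5.symm hw2.symm hde.symm
    have nvw' : v ≠ w' := by
      rintro rfl
      exact h.n1.1 b w v p4 hw1 r4.symm
    have hw''2 : dg F'' w = 2 := q4 w hwA
    have hnwb : ¬ F''.Adj w b := fun h3 => hvw (nbu w h3.symm).symm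
    have hww'' : F''.Adj w w' := by
      by_contra hc
      have hsub : F''.neighborSet w ⊆ (F2.neighborSet w) \ {w'} := by
        intro z hz
        have hz' : F''.Adj w z := hz
        refine ⟨?_, ?_⟩
        · rcases hF''.1 w z hz' with h3 | h3
          · rcases f1w z h3 with h4 | h4
            · rw [h4] at hz'; exact absurd hz' hnwb
            · rw [h4] at hz'; exact absurd hz' hc
          · exact h3
        · intro h3
          rw [Set.mem_singleton_iff] at h3
          rw [h3] at hz'
          exact hc hz'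
      have h3 := Set.ncard_le_ncard hsub (Set.toFinite _)
      have h4 := Set.ncard_sdiff_singleton_add_one (s := F2.neighborSet w) (a := w') hw2
        (Set.toFinite _)
      unfold dg at hw''2 w22
      omega
    have nww : w ≠ w' := F1.ne_of_adj hw1
    have nbw : b ≠ w := F1.ne_of_adj p4
    have ndw' : d ≠ w' := (F2.ne_of_adj p5).symm
    have hv''2 : dg F'' v = 2 := q4 v hvA
    have hv'2 : dg F'' v' = 2 := q4 v' hv'A
    have nbv' : b ≠ v' := nde_b.symm
    have f''v := two_nbrs hv''2 r1.symm r2 nbv'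
    have f''v' := two_nbrs hv'2 r2.symm r3 r7
    have hw'2 : dg F'' w' = 2 := q4 w' hw'A
    have hF''G : F'' ≤ G := by
      intro x y hxy
      rcases hF''.1 x y hxy with h3 | h3
      · exact h.le1 h3
      · exact h.le2 h3
    -- the closing graph
    have a1 := dg_rem_left F'' hww''
    have a2 := dg_rem_right F'' hww''
    have a3 : ∀ x, x ≠ w → x ≠ w' → dg (remE F'' w w') x = dg F'' x :=
      fun x h3 h4 => dg_rem_other F'' h3 h4
    set M := remE F'' w w' with hM
    have hMle : ∀ x y, M.Adj x y → F''.Adj x y := fun x y hxy => hxy.1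
    have hMns : NS M := ns_rem hF''.2.1 w w'
    have n1 : ¬ M.Adj w b := fun h3 => hnwb h3.1
    have c1 := dg_add_left M nbw.symm n1
    have c2 := dg_add_right M nbw.symm n1
    have c3 : ∀ x, x ≠ w → x ≠ b → dg (addE M w b nbw.symm) x = dg M x :=
      fun x h3 h4 => dg_add_other M nbw.symm h3 h4
    set M1 := addE M w b nbw.symm with hM1
    have hM1ns : NS M1 := by
      refine ns_add hMns nbw.symm ?_ ?_
      · intro z h3 h4
        have hz := nbu z (hMle _ _ h4).symm
        rw [hz] at h3
        rcases f''v w (hMle _ _ h3).symm with h5 | h5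
        · exact nbw h5.symm
        · exact nwv' h5
      · intro z z' h3 h4 h5
        have hz := nbu z' (hMle _ _ h5).symm
        rw [hz] at h4
        rcases f''v z (hMle _ _ h4).symm with h6 | h6
        · rw [h6] at h3
          exact n1 h3
        · rw [h6] at h3
          rcases f''v' w (hMle _ _ h3).symm with h7 | h7
          · exact hvw h7.symm
          · exact p7 h7
    have hM1d : ∀ z, M1.Adj d z → z = v' := by
      rintro z (h3 | h3 | h3)
      · exact ndu z (hMle _ _ h3)
      · exact absurd h3.1.symm p7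
      · exact absurd h3.1.symm hbd
    have hM1v' : ∀ z, M1.Adj v' z → z = v ∨ z = d := by
      rintro z (h3 | h3 | h3)
      · exact f''v' z (hMle _ _ h3)
      · exact absurd h3.1.symm nwv'
      · exact absurd h3.1.symm nbv'
    have hM1v : ∀ z, M1.Adj v z → z = b ∨ z = v' := by
      rintro z (h3 | h3 | h3)
      · exact f''v z (hMle _ _ h3)
      · exact absurd h3.1 hvw
      · exact absurd h3.1 (F1.ne_of_adj r4).symm
    have n2 : ¬ M1.Adj d w' := fun h3 => hdew (hM1d w' h3).symm
    have e1 := dg_add_left M1 ndw' n2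
    have e2 := dg_add_right M1 ndw' n2
    have e3 : ∀ x, x ≠ d → x ≠ w' → dg (addE M1 d w' ndw') x = dg M1 x :=
      fun x h3 h4 => dg_add_other M1 ndw' h3 h4
    have hns3 : NS (addE M1 d w' ndw') := by
      refine ns_add hM1ns ndw' ?_ ?_
      · intro z h3 h4
        rw [hM1d z h3] at h4
        rcases hM1v' w' h4 with h5 | h5
        · exact nvw' h5.symm
        · exact ndw' h5.symm
      · intro z z' h3 h4 h5
        rw [hM1d z h3] at h4
        rcases hM1v' z' h4 with h6 | h6
        · rw [h6] at h5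
          rcases hM1v w' h5 with h7 | h7
          · exact p6 h7
          · exact hdew h7.symm
        · rw [h6] at h5
          exact n2 h5
    have gb : dg (addE M1 d w' ndw') b = 2 := by
      rw [e3 b hbd p6.symm, c2, a3 b nbw p6.symm]; omega
    have gd : dg (addE M1 d w' ndw') d = 2 := by
      rw [e1, c3 d p7.symm hbd.symm, a3 d p7.symm ndw']; omega
    have gw : dg (addE M1 d w' ndw') w = 2 := by
      rw [e3 w p7 nww, c1]; omega
    have gw' : dg (addE M1 d w' ndw') w' = 2 := by
      rw [e2, c3 w' nww.symm p6]; omega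
    have go : ∀ x, x ≠ b → x ≠ d → x ≠ w → x ≠ w' →
        dg (addE M1 d w' ndw') x = dg F'' x := by
      intro x h3 h4 h5 h6
      rw [e3 x h4 h6, c3 x h5 h3, a3 x h5 h6]
    refine cov5_of (F := addE M1 d w' ndw') ?_ ?_ ?_ hns3
    · intro x y hxy
      rcases hxy with (h3 | h3 | h3) | h3 | h3
      · exact hF''G (hMle _ _ h3)
      · rw [h3.1, h3.2]; exact (h.le1 p4).symm
      · rw [h3.1, h3.2]; exact h.le1 p4
      · rw [h3.1, h3.2]; exact (h.le2 p5).symm
      · rw [h3.1, h3.2]; exact h.le2 p5
    · intro x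
      by_cases h3 : x = b
      · subst h3; right; exact gb
      · by_cases h4 : x = d
        · subst h4; right; exact gd
        · by_cases h5 : x = w
          · subst h5; right; exact gw
          · by_cases h6 : x = w'
            · subst h6; right; exact gw'
            · rw [go x h3 h4 h5 h6]; exact q3 x h3 h4
    · intro x hx
      by_cases h3 : x = b
      · subst h3; exact gb
      · by_cases h4 : x = d
        · subst h4; exact gd
        · by_cases h5 : x = w
          · subst h5; exact gw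
          · by_cases h6 : x = w'
            · subst h6; exact gw'
            · rw [go x h3 h4 h5 h6]
              rcases hx with hx | hx | hx
              · exact absurd hx h4
              · exact absurd hx h3
              · exact q4 x hx

/-- **Exchange lemma for cycles of length at least five.** -/
theorem exchange5 (G : SimpleGraph V) (A : Set V) (b d : V)
    (h1 : Cov5 G (insert b A)) (h2 : Cov5 G (insert d A)) (p : G.Walk b d) (hp : p.IsPath)
    (hin : ∀ r ∈ p.support, r ≠ b → r ≠ d → ¬ Cov5 G (insert r A)) :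
    Cov5 G (insert d (insert b A)) := by
  obtain ⟨F1, hG1, hF1, hA1, hT1⟩ := h1
  obtain ⟨F2, hG2, hF2, hA2, hT2⟩ := h2
  by_cases hbd : b = d
  · subst hbd
    exact ⟨F1, hG1, hF1, by simpa using hA1, hT1⟩
  by_cases hd1 : dg F1 d = 0
  swap
  · refine ⟨F1, hG1, hF1, ?_, hT1⟩
    intro v hv
    rcases hv with rfl | hv
    · rcases hF1 v with h3 | h3
      · exact absurd h3 hd1
      · exact h3
    · exact hA1 v hv
  by_cases hb2 : dg F2 b = 0
  swap
  · refine ⟨F2, hG2, hF2, ?_, hT2⟩
    intro v hv
    rcases hv with rfl | rfl | hv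
    · exact hA2 v (Set.mem_insert _ _)
    · rcases hF2 v with h3 | h3
      · exact absurd h3 hb2
      · exact h3
    · exact hA2 v (Set.mem_insert_of_mem _ hv)
  have hr1 : ∀ r ∈ p.support, r ≠ b → r ≠ d → dg F1 r = 0 := by
    intro r hr hrb hrd
    rcases hF1 r with h3 | h3
    · exact h3
    · exfalso
      apply hin r hr hrb hrd
      refine ⟨F1, hG1, hF1, ?_, hT1⟩
      intro v hv
      rcases hv with rfl | hv
      · exact h3
      · exact hA1 v (Set.mem_insert_of_mem _ hv)
  have hr2 : ∀ r ∈ p.support, r ≠ b → r ≠ d → dg F2 r = 0 := by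
    intro r hr hrb hrd
    rcases hF2 r with h3 | h3
    · exact h3
    · exfalso
      apply hin r hr hrb hrd
      refine ⟨F2, hG2, hF2, ?_, hT2⟩
      intro v hv
      rcases hv with rfl | hv
      · exact h3
      · exact hA2 v (Set.mem_insert_of_mem _ hv)
  have hP : Prob G F1 F2 A b d := ⟨hG1, hG2, hT1, hT2, hF1, hF2,
    fun v hv => hA1 v (Set.mem_insert_of_mem _ hv),
    fun v hv => hA2 v (Set.mem_insert_of_mem _ hv), hA1 b (Set.mem_insert _ _),
    hA2 d (Set.mem_insert _ _), hd1, hb2⟩
  by_cases hG : G.Adj b d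
  · exact edge5 _ F1 F2 A b d (Nat.lt_succ_self _) hP hG
  have hd2 : dg F2 d = 2 := hP.d2
  obtain ⟨a0, ha0⟩ : ∃ z, F2.Adj d z := by
    have h3 : 0 < dg F2 d := by omega
    unfold dg at h3
    rw [Set.ncard_pos (Set.toFinite _)] at h3
    exact h3
  obtain ⟨F', hle, hns, hF'⟩ := start5 hP ha0
  have hF'G : F' ≤ G := by
    intro u v huv
    rcases hle u v huv with h3 | h3
    · exact hG1 h3
    · exact hG2 h3
  rcases hF' with ⟨k1, k2, k3, k4⟩ | ⟨k1, k2, k3, k4, -⟩
  · refine cov5_of hF'G k1 ?_ hns
    intro v hv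
    rcases hv with rfl | rfl | hv
    · exact k4
    · exact k3
    · exact k2 v hv
  · have hz : ∀ v ∈ p.support, v ≠ b → v ≠ d → dg F' v = 0 := by
      intro v hv hvb hvd
      by_contra hc
      have : 0 < dg F' v := Nat.pos_of_ne_zero hc
      unfold dg at this
      rw [Set.ncard_pos (Set.toFinite _)] at this
      obtain ⟨u, hu⟩ := this
      rcases hle v u hu with h3 | h3
      · have := adj_pos h3
        have := hr1 v hv hvb hvd
        omega
      · have := adj_pos h3
        have := hr2 v hv hvb hvd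
        omega
    by_cases c2 : ∃ z, F'.Adj b z ∧ F'.Adj z d
    · obtain ⟨z, h3, h4⟩ := c2
      have h5 : F1.Adj b z := by
        rcases hle b z h3 with h6 | h6
        · exact h6
        · have := adj_pos h6
          omega
      exact ins5 hP h5 (hF'G h4) p hp hr1
    · obtain ⟨F'', m1, m0, m2, m3, m4, m5⟩ := path_close5 G p hp hbd F' hF'G hns k1 k2
        (fun h3 => hG (hF'G h3)) (fun z h3 h4 => c2 ⟨z, h3, h4⟩) (fun h3 => absurd h3 hG)
        hz k3
      refine cov5_of m1 m2 ?_ m0
      intro v hv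
      rcases hv with rfl | rfl | hv
      · exact m4
      · exact m3
      · exact m5 v (k4 v hv)

/-- walk form -/
theorem exchange5_walk (G : SimpleGraph V) (A : Set V) (b d : V)
    (h1 : Cov5 G (insert b A)) (h2 : Cov5 G (insert d A)) (p : G.Walk b d)
    (hin : ∀ r ∈ p.support, r ≠ b → r ≠ d → ¬ Cov5 G (insert r A)) :
    Cov5 G (insert d (insert b A)) := by
  classical
  exact exchange5 G A b d h1 h2 p.bypass p.bypass_isPath
    (fun r hr => hin r (p.support_bypass_subset_support hr))

end H58E
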