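import Pool.Agent.Lib.H58E.Exch

/-! Every vertex of a 2-connected graph lies on a cycle, in the form `Cov G {v}`. -/

namespace H58E

open SimpleGraph

set_option linter.unusedSectionVars false

variable {V : Type*} [Finite V]

theorem dg_bot (v : V) : dg (⊥ : SimpleGraph V) v = 0 := by
  unfold dg
  simp

theorem cov_single (G : SimpleGraph V) {v u1 u2 : V} (h1 : G.Adj v u1) (h2 : G.Adj v u2)
    (h : u1 ≠ u2) (p : G.Walk u1 u2) (hv : v ∉ p.support) : Cov G {v} := by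
  classical
  have hv' : v ∉ p.bypass.support := fun h3 => hv (p.support_bypass_subset_support h3)
  have e1 : v ≠ u1 := G.ne_of_adj h1
  have e2 : v ≠ u2 := G.ne_of_adj h2
  set F1 : SimpleGraph V := addE ⊥ v u1 e1 with hF1
  have n1 : ¬ (⊥ : SimpleGraph V).Adj v u1 := fun h3 => h3
  have a1 : dg F1 v = 1 := by rw [hF1, dg_add_left _ e1 n1, dg_bot]
  have a2 : dg F1 u1 = 1 := by rw [hF1, dg_add_right _ e1 n1, dg_bot]
  have a3 : ∀ w, w ≠ v → w ≠ u1 → dg F1 w = 0 := by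
    intro w h3 h4
    rw [hF1, dg_add_other _ e1 h3 h4, dg_bot]
  have n2 : ¬ F1.Adj v u2 := by
    rintro (h3 | h3 | h3)
    · exact h3
    · exact h h3.2.symm
    · exact e1 h3.1
  set F2 : SimpleGraph V := addE F1 v u2 e2 with hF2
  have b1 : dg F2 v = 2 := by rw [hF2, dg_add_left _ e2 n2, a1]
  have b2 : dg F2 u2 = 1 := by
    rw [hF2, dg_add_right _ e2 n2, a3 u2 e2.symm h.symm]
  have b3 : dg F2 u1 = 1 := by
    rw [hF2, dg_add_other _ e2 e1.symm h, a2]
  have b4 : ∀ w, w ≠ v → w ≠ u1 → w ≠ u2 → dg F2 w = 0 := by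
    intro w h3 h4 h5
    rw [hF2, dg_add_other _ e2 h3 h5, a3 w h3 h4]
  have hle : F2 ≤ G := by
    intro a b hab
    rcases hab with (h3 | h3 | h3) | h3 | h3
    · exact absurd h3 (fun h4 => h4)
    · rw [h3.1, h3.2]; exact h1
    · rw [h3.1, h3.2]; exact h1.symm
    · rw [h3.1, h3.2]; exact h2
    · rw [h3.1, h3.2]; exact h2.symm
  have n3 : ¬ F2.Adj u1 u2 := by
    rintro ((h3 | h3 | h3) | h3 | h3)
    · exact h3
    · exact e1 h3.1.symm
    · exact e2 h3.2.symm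
    · exact e1 h3.1.symm
    · exact h h3.1
  obtain ⟨F', k1, k2, -, -, k5⟩ := path_close G p.bypass p.bypass_isPath h F2 hle b3 b2 n3
    (by
      intro w hw h3 h4
      exact b4 w (fun h5 => hv' (h5 ▸ hw)) h3 h4)
    (by
      intro w h3 h4
      by_cases h5 : w = v
      · subst h5; right; exact b1
      · left; exact b4 w h5 h3 h4)
  refine ⟨F', k1, k2, ?_⟩
  intro w hw
  rw [Set.mem_singleton_iff] at hw
  subst hw
  exact k5 w b1

theorem exists_nbr (G : SimpleGraph V)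
    (H : ∀ x a b : V, a ≠ x → b ≠ x → ∃ p : G.Walk a b, x ∉ p.support)
    {v w u : V} (hwv : w ≠ v) (hwu : w ≠ u) (hvu : v ≠ u) : ∃ z, G.Adj v z ∧ z ≠ u := by
  obtain ⟨p, hp⟩ := H u v w hvu hwu
  cases p with
  | nil => exact absurd rfl hwv
  | cons h q =>
    rename_i z
    exact ⟨z, h, fun h3 => hp (by subst h3; simp)⟩

/-- every vertex of a 2-connected graph with at least three vertices lies on a cycle -/
theorem cov_of_two (G : SimpleGraph V)
    (H : ∀ x a b : V, a ≠ x → b ≠ x → ∃ p : G.Walk a b, x ∉ p.support)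
    (h3 : ∀ a b : V, ∃ c, c ≠ a ∧ c ≠ b) (v : V) : Cov G {v} := by
  obtain ⟨w1, hw1, -⟩ := h3 v v
  obtain ⟨w2, hw2, hw21⟩ := h3 v w1
  obtain ⟨u1, hu1, -⟩ := exists_nbr G H hw1 hw21.symm hw2.symm
  have hv1 : v ≠ u1 := G.ne_of_adj hu1
  obtain ⟨w3, hw3, hw31⟩ := h3 v u1
  obtain ⟨u2, hu2, hu21⟩ := exists_nbr G H hw3 hw31 hv1
  have hv2 : v ≠ u2 := G.ne_of_adj hu2
  obtain ⟨p, hp⟩ := H v u1 u2 hv1.symm hv2.symm
  exact cov_single G hu1 hu2 hu21.symm p hp

end H58E
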