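import Pool.Agent.Lib.H20TD.B
import Pool.Agent.Lib.H58E.P2

/-! If no `univ.erase x` is disconnected (2-connected case), every vertex lies on a cycle, in the
form `H20TD.Pi G {v}`; together with `H20TD.ac_X` this settles the 2-connected case. -/

set_option autoImplicit false

namespace H58E

open Finset H98P H63F H98M H30F

variable {V : Type*} [Fintype V] [DecidableEq V]

theorem pi_single (G : Finset (Sym2 V)) (h3 : 3 ≤ Fintype.card V)
    (H : ∀ x : V, ¬ Disc (univ.erase x) G) (v : V) : H20TD.Pi G {v} := by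
  have h3' : ∀ a b : V, ∃ c, c ≠ a ∧ c ≠ b := by
    intro a b
    have h4 : ({a, b} : Finset V).card < (univ : Finset V).card := by
      have : ({a, b} : Finset V).card ≤ 2 := Finset.card_le_two
      rw [Finset.card_univ]
      omega
    obtain ⟨c, -, hc⟩ := Finset.exists_mem_notMem_of_card_lt_card h4
    rw [mem_insert, mem_singleton, not_or] at hc
    exact ⟨c, hc⟩
  have h5 := cov_of_two (SimpleGraph.fromEdgeSet (G : Set (Sym2 V)))
    (fun x a b ha hb => by
      obtain ⟨p, hp⟩ := H20TD.exists_walk (H x) (mem_erase.2 ⟨ha, mem_univ a⟩)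
        (mem_erase.2 ⟨hb, mem_univ b⟩)
      exact ⟨p, fun h => (mem_erase.1 (hp x h)).1 rfl⟩) h3' v
  unfold H20TD.Pi
  simpa using h5

/-- the 2-connected case of the functor -/
theorem ac_two (G : Finset (Sym2 V)) (h3 : 3 ≤ Fintype.card V)
    (H : ∀ x : V, ¬ Disc (univ.erase x) G) (hV : ¬ H20TD.Pi G univ) :
    AC (Ch fun W : Finset V => Disc W G ∧ ¬ H20TD.Pi G W) :=
  H20TD.ac_X G (pi_single G h3 H) hV

end H58E
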