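import Pool.Agent.Lib.LD.Def
import Pool.Agent.Lib.H85TF.P2

/-!
# H58E, file S2: a cover of the reduced graph gives a cover of the graph (chunk S2 of form D)
-/

set_option autoImplicit false

namespace H58E.S2

open Finset H98M H85TF LD

variable {V : Type*} [DecidableEq V]

/-- A side of a separation together with the two vertices is connected. -/
theorem side_conn {E : Finset (Sym2 V)} {Y : Finset V} {x y : V} {P Q : Finset V}
    (hT : TCY E Y) (hs : Sep E Y x y P Q) : ¬ Disc (insert x (insert y Q)) E := by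
  rintro ⟨C, D, hC, hD, hCD, hU, hno⟩
  have hY : ∀ v, v ∈ Y ↔ v = x ∨ v = y ∨ v ∈ P ∨ v ∈ Q := by
    intro v
    rw [← hs.eq]
    simp
  have hm : ∀ v, v ∈ C ∨ v ∈ D ↔ v = x ∨ v = y ∨ v ∈ Q := by
    intro v
    rw [← mem_union, hU]
    simp
  -- both in the same part
  have same : ∀ C D : Finset V, D.Nonempty → Disjoint C D →
      (∀ v, v ∈ C ∨ v ∈ D ↔ v = x ∨ v = y ∨ v ∈ Q) → (∀ a ∈ C, ∀ b ∈ D, s(a, b) ∉ E) →
      x ∈ C → y ∈ C → False := by
    intro C D hD hCD hm hno hx hy
    have hDQ : ∀ v ∈ D, v ∈ Q := by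
      intro v hv
      rcases (hm v).1 (Or.inr hv) with rfl | rfl | h
      · exact absurd hv (disjoint_left.1 hCD hx)
      · exact absurd hv (disjoint_left.1 hCD hy)
      · exact h
    refine hT.conn ⟨C ∪ P, D, ⟨x, mem_union_left _ hx⟩, hD, ?_, ?_, ?_⟩
    · rw [disjoint_left]
      intro v hv hv'
      rcases mem_union.1 hv with h | h
      · exact disjoint_left.1 hCD h hv'
      · exact disjoint_left.1 hs.dis h (hDQ v hv')
    · ext v
      rw [hY v, mem_union, mem_union]
      constructor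
      · rintro ((h | h) | h)
        · rcases (hm v).1 (Or.inl h) with h | h | h <;> simp [h]
        · simp [h]
        · simp [hDQ v h]
      · rintro (h | h | h | h)
        · rcases (hm v).2 (Or.inl h) with h | h <;> simp [h]
        · rcases (hm v).2 (Or.inr (Or.inl h)) with h | h <;> simp [h]
        · simp [h]
        · rcases (hm v).2 (Or.inr (Or.inr h)) with h | h <;> simp [h]
    · intro a ha b hb
      rcases mem_union.1 ha with h | h
      · exact hno a h b hb
      · exact hs.noE a h b (hDQ b hb)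
  -- in different parts
  have diff : ∀ (x y : V) (C D : Finset V), x ∉ P → x ∉ Q → y ∉ P → y ∉ Q → x ≠ y →
      (∀ v, v ∈ Y ↔ v = x ∨ v = y ∨ v ∈ P ∨ v ∈ Q) → Disjoint C D →
      (∀ v, v ∈ C ∨ v ∈ D ↔ v = x ∨ v = y ∨ v ∈ Q) → (∀ a ∈ C, ∀ b ∈ D, s(a, b) ∉ E) →
      x ∈ C → y ∈ D → ∀ q ∈ Q, q ∈ C → False := by
    intro x y C D hxP hxQ hyP hyQ hxy hY hCD hm hno hx hy q hq hqC
    have hxD : x ∉ D := disjoint_left.1 hCD hx
    have hyC : y ∉ C := fun h => disjoint_left.1 hCD h hy
    have hCQ : ∀ v ∈ C, v ≠ x → v ∈ Q := by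
      intro v hv hvx
      rcases (hm v).1 (Or.inl hv) with rfl | rfl | h
      · exact absurd rfl hvx
      · exact absurd hv hyC
      · exact h
    refine hT.conn' x ((hY x).2 (Or.inl rfl)) ⟨C.erase x, D ∪ P,
      ⟨q, mem_erase.2 ⟨fun e => hxQ (e ▸ hq), hqC⟩⟩, ⟨y, mem_union_left _ hy⟩, ?_, ?_, ?_⟩
    · rw [disjoint_left]
      intro v hv hv'
      rw [mem_erase] at hv
      rcases mem_union.1 hv' with h | h
      · exact disjoint_left.1 hCD hv.2 h
      · exact disjoint_left.1 hs.dis h (hCQ v hv.2 hv.1)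
    · ext v
      rw [mem_union, mem_union, mem_erase, mem_erase, hY v]
      constructor
      · rintro (h | h | h)
        · exact ⟨h.1, Or.inr (Or.inr (Or.inr (hCQ v h.2 h.1)))⟩
        · refine ⟨fun e => hxD (e ▸ h), ?_⟩
          rcases (hm v).1 (Or.inr h) with h | h | h <;> simp [h]
        · exact ⟨fun e => hxP (e ▸ h), by simp [h]⟩
      · rintro ⟨h0, h | h | h | h⟩
        · exact absurd h h0
        · exact Or.inr (Or.inl (h ▸ hy))
        · exact Or.inr (Or.inr h)
        · rcases (hm v).2 (Or.inr (Or.inr h)) with h | h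
          · exact Or.inl ⟨h0, h⟩
          · exact Or.inr (Or.inl h)
    · intro a ha b hb
      rw [mem_erase] at ha
      rcases mem_union.1 hb with h | h
      · exact hno a ha.2 b h
      · rw [Sym2.eq_swap]
        exact hs.noE b h a (hCQ a ha.2 ha.1)
  have hno' : ∀ a ∈ D, ∀ b ∈ C, s(a, b) ∉ E := fun a ha b hb => by
    rw [Sym2.eq_swap]
    exact hno b hb a ha
  have hm' : ∀ v, v ∈ D ∨ v ∈ C ↔ v = x ∨ v = y ∨ v ∈ Q := fun v => by
    rw [or_comm]
    exact hm v
  have hY2 : ∀ v, v ∈ Y ↔ v = y ∨ v = x ∨ v ∈ P ∨ v ∈ Q := fun v => by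
    rw [hY v]
    tauto
  have hm2 : ∀ v, v ∈ C ∨ v ∈ D ↔ v = y ∨ v = x ∨ v ∈ Q := fun v => by
    rw [hm v]
    tauto
  have hm2' : ∀ v, v ∈ D ∨ v ∈ C ↔ v = y ∨ v = x ∨ v ∈ Q := fun v => by
    rw [hm' v]
    tauto
  obtain ⟨q, hq⟩ := hs.Q0
  rcases (hm x).2 (Or.inl rfl) with hx | hx <;> rcases (hm y).2 (Or.inr (Or.inl rfl)) with hy | hy
  · exact same C D hD hCD hm hno hx hy
  · rcases (hm q).2 (Or.inr (Or.inr hq)) with h | h
    · exact diff x y C D hs.xP hs.xQ hs.yP hs.yQ hs.ne hY hCD hm hno hx hy q hq h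
    · exact diff y x D C hs.yP hs.yQ hs.xP hs.xQ hs.ne.symm hY2 hCD.symm hm2' hno' hy hx q hq h
  · rcases (hm q).2 (Or.inr (Or.inr hq)) with h | h
    · exact diff y x C D hs.yP hs.yQ hs.xP hs.xQ hs.ne.symm hY2 hCD hm2 hno hy hx q hq h
    · exact diff x y D C hs.xP hs.xQ hs.yP hs.yQ hs.ne hY hCD.symm hm' hno' hx hy q hq h
  · exact same D C hC hCD.symm hm' hno' hx hy

/-- (S2) A cover in the reduced graph gives a cover in the graph: the edge `xy` is replaced by a
path through the removed side. -/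
theorem cov_red {E : Finset (Sym2 V)} {Y : Finset V} {x y : V} {P Q A : Finset V}
    (hT : TCY E Y) (hs : Sep E Y x y P Q) (_hA : A ⊆ Y \ Q) (h : Cov (red E Y x y Q) A) :
    Cov E A := by
  obtain ⟨F, hF, hdeg, hcov⟩ := h
  by_cases hin : s(x, y) ∈ F ∧ s(x, y) ∉ E
  swap
  · refine ⟨F, fun e he => ?_, hdeg, hcov⟩
    rcases mem_insert.1 (hF he) with h1 | h1
    · rw [h1]
      by_contra h2
      exact hin ⟨h1 ▸ he, h2⟩
    · exact (mem_inter.1 h1).1
  · obtain ⟨hxyF, hxyE⟩ := hin
    obtain ⟨p, hp, hpU⟩ := path_of_not_disc (side_conn hT hs) (b := x) (d := y) (by simp)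
      (by simp)
    have key := dg_erase hxyF
    have hF0 : F.erase s(x, y) ⊆ E := by
      intro e he
      rw [mem_erase] at he
      rcases mem_insert.1 (hF he.2) with h1 | h1
      · exact absurd h1 he.1
      · exact (mem_inter.1 h1).1
    have kx := key x
    rw [if_pos (Or.inl rfl)] at kx
    have ky := key y
    rw [if_pos (Or.inr rfl)] at ky
    have hx1 : dg (F.erase s(x, y)) x = 1 := by
      have := hdeg x
      omega
    have hy1 : dg (F.erase s(x, y)) y = 1 := by
      have := hdeg y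
      omega
    have hr : ∀ v, v ≠ x → v ≠ y → dg (F.erase s(x, y)) v = dg F v := by
      intro v h1 h2
      have := key v
      rw [if_neg (by push Not; exact ⟨h1, h2⟩)] at this
      omega
    obtain ⟨F', hF', h1, h2, h3, h4⟩ := addPath p hp (F.erase s(x, y)) hF0 hs.ne
      (notMem_erase _ _) hx1 hy1 (fun v h1 h2 => by rw [hr v h1 h2]; exact hdeg v)
      (by
        intro r hrp h1 h2
        have hrQ : r ∈ Q := by
          have := hpU r hrp
          rw [mem_insert, mem_insert] at this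
          rcases this with h | h | h
          · exact absurd h h1
          · exact absurd h h2
          · exact h
        unfold dg
        rw [card_eq_zero, filter_eq_empty_iff]
        intro e he hre
        rw [mem_erase] at he
        rcases mem_insert.1 (hF he.2) with h5 | h5
        · exact he.1 h5
        · have h6 := mem_sym2_iff.1 (mem_inter.1 h5).2 r hre
          exact (mem_sdiff.1 h6).2 hrQ)
    refine ⟨F', hF', h1, fun v hv => ?_⟩
    by_cases hvx : v = x
    · rw [hvx]
      exact h2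
    · by_cases hvy : v = y
      · rw [hvy]
        exact h3
      · exact h4 v (by rw [hr v hvx hvy]; exact hcov v hv)

end H58E.S2
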